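import Mathlib

/-!
# A localized standing wave for the defocusing cubic NLS: one-variable functions
-/

open Real Set Filter Topology MeasureTheory
open scoped ContDiff

noncomputable section

namespace H751R3.Nls

/-- smooth cutoff: `0` for `s ≤ 1/2`, `1` for `s ≥ 1` -/
def chi (s : ℝ) : ℝ := Real.smoothTransition (2 * s - 1)

/-- the phase -/
def S (k y : ℝ) : ℝ := k * (y - 1 - Real.log y / 2)
def S1 (k y : ℝ) : ℝ := k * (1 - 1 / (2 * y))
def S2 (k y : ℝ) : ℝ := k / (2 * y ^ 2)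
def T (k y : ℝ) : ℝ := 2 * S k y + sin (2 * S k y)
def T1 (k y : ℝ) : ℝ := 4 * S1 k y * cos (S k y) ^ 2
def mm (y : ℝ) : ℝ := 1 - 1 / y ^ 2
def BB (n : ℕ) (y : ℝ) : ℝ := ((n : ℝ) - 1) / y + 1 / y ^ 3
def DD (n : ℕ) (y : ℝ) : ℝ := 1 / (y * (2 * y - 1)) + (((n : ℝ) - 1) * y ^ 2 + 1) / (y * (y ^ 2 - 1))
def DD1 (n : ℕ) (y : ℝ) : ℝ :=
  -(4 * y - 1) / (y * (2 * y - 1)) ^ 2
    - (((n : ℝ) - 1) * y ^ 4 + ((n : ℝ) - 1) * y ^ 2 + 3 * y ^ 2 - 1) / (y * (y ^ 2 - 1)) ^ 2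
def aa (k : ℝ) (n : ℕ) (y : ℝ) : ℝ := if y ≤ 1 then 0 else chi (S k y) * DD n y
def II (k : ℝ) (n : ℕ) (y : ℝ) : ℝ := ∫ u in (1:ℝ)..y, aa k n u
/-- logarithm of the amplitude -/
def LL (k : ℝ) (g n : ℕ) (y : ℝ) : ℝ :=
  -(1 / 2) * II k n y - g * Real.log (1 + T k y ^ 2)
def qq (k y : ℝ) : ℝ := T k y / (1 + T k y ^ 2)
def Lam (k : ℝ) (g n : ℕ) (y : ℝ) : ℝ :=
  -(1 / 2) * aa k n y - 8 * g * (S1 k y * cos (S k y) ^ 2 * qq k y)
def Lam1 (k : ℝ) (g n : ℕ) (y : ℝ) : ℝ :=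
  -(1 / 2) * deriv (aa k n) y
    - 8 * g * (S2 k y * cos (S k y) ^ 2 * qq k y
      - S1 k y ^ 2 * sin (2 * S k y) * qq k y
      + S1 k y * cos (S k y) ^ 2 * (T1 k y * (1 - T k y ^ 2) / (1 + T k y ^ 2) ^ 2))
def FF (k : ℝ) (g n : ℕ) (y : ℝ) : ℝ := exp (LL k g n y) * cos (S k y)
def tau (s : ℝ) : ℝ := (1 - chi s) * tan s
/-- the potential before subtraction of the square of the profile -/
def vv (k : ℝ) (g n : ℕ) (y : ℝ) : ℝ :=
  k ^ 2 - S1 k y ^ 2 * mm y + mm y * (Lam1 k g n y + Lam k g n y ^ 2) + BB n y * Lam k g n y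
    - tau (S k y) * (S2 k y * mm y + S1 k y * BB n y)
    + 8 * g * (qq k y * S1 k y ^ 2 * mm y * sin (2 * S k y))

/-! ### the cutoff -/

lemma chi_contDiff : ContDiff ℝ ∞ chi := by
  unfold chi
  exact Real.smoothTransition.contDiff.comp (by fun_prop)

lemma chi_nonneg (s : ℝ) : 0 ≤ chi s := Real.smoothTransition.nonneg _
lemma chi_le_one (s : ℝ) : chi s ≤ 1 := Real.smoothTransition.le_one _
lemma chi_zero {s : ℝ} (h : s ≤ 1 / 2) : chi s = 0 :=
  Real.smoothTransition.zero_of_nonpos (by linarith)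
lemma chi_one {s : ℝ} (h : 1 ≤ s) : chi s = 1 :=
  Real.smoothTransition.one_of_one_le (by linarith)

lemma chi_deriv_bdd : ∃ C : ℝ, 0 ≤ C ∧ ∀ s, |deriv chi s| ≤ C := by
  have hc : Continuous (deriv chi) := chi_contDiff.continuous_deriv (by norm_num)
  obtain ⟨C, hC⟩ := (isCompact_Icc (a := (0:ℝ)) (b := 2)).exists_bound_of_continuousOn hc.continuousOn
  refine ⟨max C 0, le_max_right _ _, fun s => ?_⟩
  by_cases h0 : s < 1 / 2
  · have : chi =ᶠ[𝓝 s] fun _ => 0 := by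
      filter_upwards [Iio_mem_nhds h0] with u hu using chi_zero (le_of_lt hu)
    rw [this.deriv_eq]; simp
  · by_cases h1 : 1 < s
    · have : chi =ᶠ[𝓝 s] fun _ => 1 := by
        filter_upwards [Ioi_mem_nhds h1] with u hu using chi_one (le_of_lt hu)
      rw [this.deriv_eq]; simp
    · have := hC s ⟨by linarith [not_lt.mp h0], by linarith [not_lt.mp h1]⟩
      exact (le_trans (by simpa using this) (le_max_left _ _))

/-! ### elementary derivatives -/

lemma hasDerivAt_S (k : ℝ) {y : ℝ} (hy : 0 < y) : HasDerivAt (S k) (S1 k y) y := by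
  have h := (((hasDerivAt_id y).sub_const 1).sub ((Real.hasDerivAt_log hy.ne').div_const 2)).const_mul k
  refine (h.congr_deriv ?_)
  unfold S1
  field_simp

lemma hasDerivAt_S1 (k : ℝ) {y : ℝ} (hy : 0 < y) : HasDerivAt (S1 k) (S2 k y) y := by
  have h1 : HasDerivAt (fun y : ℝ => 1 / (2 * y)) (-(2) / (2 * y) ^ 2) y := by
    have := ((hasDerivAt_id y).const_mul 2).fun_inv (by simpa using hy.ne')
    simpa [one_div] using this
  have h := (h1.const_sub 1).const_mul k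
  refine (h.congr_deriv ?_)
  unfold S2
  field_simp

lemma hasDerivAt_T (k : ℝ) {y : ℝ} (hy : 0 < y) : HasDerivAt (T k) (T1 k y) y := by
  have h1 := (hasDerivAt_S k hy).const_mul 2
  have h2 := h1.sin
  have h := h1.add h2
  refine (h.congr_deriv ?_)
  unfold T1
  rw [cos_two_mul]
  ring

lemma hasDerivAt_qq (k : ℝ) {y : ℝ} (hy : 0 < y) :
    HasDerivAt (qq k) (T1 k y * (1 - T k y ^ 2) / (1 + T k y ^ 2) ^ 2) y := by
  have h1 := hasDerivAt_T k hy
  have h2 : HasDerivAt (fun y => 1 + T k y ^ 2) (2 * T k y * T1 k y) y := by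
    have := (h1.pow 2).const_add 1
    refine this.congr_deriv ?_
    ring
  have h3 : (1 + T k y ^ 2) ≠ 0 := by positivity
  have h := h1.div h2 h3
  refine h.congr_deriv ?_
  congr 1
  ring

lemma S_contDiffAt (k : ℝ) {y : ℝ} (hy : 0 < y) : ContDiffAt ℝ ∞ (S k) y := by
  unfold S
  have h1 : ContDiffAt ℝ ∞ Real.log y := (Real.contDiffAt_log).2 hy.ne'
  exact contDiffAt_const.mul ((contDiffAt_id.sub contDiffAt_const).sub (h1.div_const 2))

lemma S1_contDiffAt (k : ℝ) {y : ℝ} (hy : 0 < y) : ContDiffAt ℝ ∞ (S1 k) y := by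
  unfold S1
  refine contDiffAt_const.mul (contDiffAt_const.sub (contDiffAt_const.div ?_ (by positivity)))
  exact contDiffAt_const.mul contDiffAt_id

lemma S2_contDiffAt (k : ℝ) {y : ℝ} (hy : 0 < y) : ContDiffAt ℝ ∞ (S2 k) y := by
  unfold S2
  refine contDiffAt_const.div ?_ (by positivity)
  exact contDiffAt_const.mul (contDiffAt_id.pow 2)

lemma mm_contDiffAt {y : ℝ} (hy : 0 < y) : ContDiffAt ℝ ∞ mm y := by
  unfold mm
  refine contDiffAt_const.sub (contDiffAt_const.div (contDiffAt_id.pow 2) ?_)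
  positivity

lemma BB_contDiffAt (n : ℕ) {y : ℝ} (hy : 0 < y) : ContDiffAt ℝ ∞ (BB n) y := by
  unfold BB
  refine (contDiffAt_const.div contDiffAt_id hy.ne').add (contDiffAt_const.div (contDiffAt_id.pow 3) ?_)
  positivity

lemma T_contDiffAt (k : ℝ) {y : ℝ} (hy : 0 < y) : ContDiffAt ℝ ∞ (T k) y := by
  unfold T
  have h := (contDiffAt_const (c := (2:ℝ))).mul (S_contDiffAt k hy)
  exact h.add h.sin

lemma T1_contDiffAt (k : ℝ) {y : ℝ} (hy : 0 < y) : ContDiffAt ℝ ∞ (T1 k) y := by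
  unfold T1
  exact (contDiffAt_const.mul (S1_contDiffAt k hy)).mul ((S_contDiffAt k hy).cos.pow 2)

lemma qq_contDiffAt (k : ℝ) {y : ℝ} (hy : 0 < y) : ContDiffAt ℝ ∞ (qq k) y := by
  unfold qq
  have h := T_contDiffAt k hy
  exact h.div (contDiffAt_const.add (h.pow 2)) (by positivity)

/-! ### the function `aa` -/

lemma S_one (k : ℝ) : S k 1 = 0 := by simp [S]

lemma aa_eq_of_gt (k : ℝ) (n : ℕ) {y : ℝ} (hy : 1 < y) : aa k n y = chi (S k y) * DD n y := by
  simp [aa, not_le.mpr hy]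

lemma aa_eventually_zero (k : ℝ) (n : ℕ) {y : ℝ} (hy : y ≤ 1) : aa k n =ᶠ[𝓝 y] fun _ => 0 := by
  have h1 : ∀ᶠ u in 𝓝 (1:ℝ), S k u < 1 / 2 := by
    have hc : ContinuousAt (S k) 1 := (hasDerivAt_S k one_pos).continuousAt
    exact hc.eventually_lt continuousAt_const (by rw [S_one]; norm_num)
  rcases lt_or_eq_of_le hy with h | h
  · filter_upwards [Iio_mem_nhds h] with u hu
    have hu' : u ≤ 1 := le_of_lt hu
    simp [aa, hu']
  · rw [h]
    filter_upwards [h1] with u hu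
    by_cases h2 : u ≤ 1
    · simp [aa, h2]
    · simp [aa, h2, chi_zero (le_of_lt hu)]

lemma DD_contDiffAt (n : ℕ) {y : ℝ} (hy : 1 < y) : ContDiffAt ℝ ∞ (DD n) y := by
  have h1 : y * (2 * y - 1) ≠ 0 := by
    have : 0 < y * (2 * y - 1) := mul_pos (by linarith) (by linarith)
    exact this.ne'
  have h2 : y * (y ^ 2 - 1) ≠ 0 := by
    have : 0 < y * (y ^ 2 - 1) := mul_pos (by linarith) (by nlinarith)
    exact this.ne'
  have c1 : ContDiffAt ℝ ∞ (fun y : ℝ => y * (2 * y - 1)) y := by fun_prop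
  have c2 : ContDiffAt ℝ ∞ (fun y : ℝ => ((n : ℝ) - 1) * y ^ 2 + 1) y := by fun_prop
  have c3 : ContDiffAt ℝ ∞ (fun y : ℝ => y * (y ^ 2 - 1)) y := by fun_prop
  exact (contDiffAt_const.div c1 h1).add (c2.div c3 h2)

lemma aa_contDiff (k : ℝ) (n : ℕ) : ContDiff ℝ ∞ (aa k n) := by
  rw [contDiff_iff_contDiffAt]
  intro y
  rcases le_or_gt y 1 with h | h
  · exact contDiffAt_const.congr_of_eventuallyEq (aa_eventually_zero k n h)
  · have h1 : aa k n =ᶠ[𝓝 y] fun u => chi (S k u) * DD n u := by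
      filter_upwards [Ioi_mem_nhds h] with u hu using aa_eq_of_gt k n hu
    refine ContDiffAt.congr_of_eventuallyEq ?_ h1
    exact (chi_contDiff.contDiffAt.comp y (S_contDiffAt k (by linarith))).mul (DD_contDiffAt n h)

lemma hasDerivAt_DD (n : ℕ) {y : ℝ} (hy : 1 < y) : HasDerivAt (DD n) (DD1 n y) y := by
  have h1 : y * (2 * y - 1) ≠ 0 := by
    have : 0 < y * (2 * y - 1) := mul_pos (by linarith) (by linarith)
    exact this.ne'
  have h2 : y * (y ^ 2 - 1) ≠ 0 := by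
    have : 0 < y * (y ^ 2 - 1) := mul_pos (by linarith) (by nlinarith)
    exact this.ne'
  have a1 : HasDerivAt (fun y : ℝ => y * (2 * y - 1)) (4 * y - 1) y := by
    have := (hasDerivAt_id y).mul (((hasDerivAt_id y).const_mul 2).sub_const 1)
    refine this.congr_deriv ?_
    simp; ring
  have a2 : HasDerivAt (fun y : ℝ => y * (y ^ 2 - 1)) (3 * y ^ 2 - 1) y := by
    have := (hasDerivAt_id y).mul (((hasDerivAt_pow 2 y)).sub_const 1)
    refine this.congr_deriv ?_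
    simp; ring
  have a3 : HasDerivAt (fun y : ℝ => ((n : ℝ) - 1) * y ^ 2 + 1) (((n : ℝ) - 1) * (2 * y)) y := by
    have := ((hasDerivAt_pow 2 y).const_mul ((n : ℝ) - 1)).add_const 1
    refine this.congr_deriv ?_
    simp
  have h := ((hasDerivAt_const y (1:ℝ)).div a1 h1).add (a3.div a2 h2)
  refine h.congr_deriv ?_
  unfold DD1
  have e1 : (0 * (y * (2 * y - 1)) - 1 * (4 * y - 1)) = -(4 * y - 1) := by ring
  have e2 : (((n : ℝ) - 1) * (2 * y) * (y * (y ^ 2 - 1)) - (((n : ℝ) - 1) * y ^ 2 + 1) * (3 * y ^ 2 - 1))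
      = - (((n : ℝ) - 1) * y ^ 4 + ((n : ℝ) - 1) * y ^ 2 + 3 * y ^ 2 - 1) := by ring
  rw [e1, e2]
  ring

lemma deriv_aa_of_gt (k : ℝ) (n : ℕ) {y : ℝ} (hy : 1 < y) :
    deriv (aa k n) y = deriv chi (S k y) * S1 k y * DD n y + chi (S k y) * DD1 n y := by
  have h1 : aa k n =ᶠ[𝓝 y] fun u => chi (S k u) * DD n u := by
    filter_upwards [Ioi_mem_nhds hy] with u hu using aa_eq_of_gt k n hu
  rw [h1.deriv_eq]
  have hc : HasDerivAt chi (deriv chi (S k y)) (S k y) :=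
    (chi_contDiff.differentiable (by norm_num)).differentiableAt.hasDerivAt
  have h2 := (hc.comp y (hasDerivAt_S k (by linarith))).mul (hasDerivAt_DD n hy)
  exact h2.deriv

lemma deriv_aa_of_le (k : ℝ) (n : ℕ) {y : ℝ} (hy : y ≤ 1) : deriv (aa k n) y = 0 := by
  rw [(aa_eventually_zero k n hy).deriv_eq]; simp

lemma hasDerivAt_II (k : ℝ) (n : ℕ) (y : ℝ) : HasDerivAt (II k n) (aa k n y) y := by
  have hc : Continuous (aa k n) := (aa_contDiff k n).continuous
  exact intervalIntegral.integral_hasDerivAt_right (hc.intervalIntegrable _ _)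
    (hc.stronglyMeasurableAtFilter _ _) hc.continuousAt

lemma II_contDiff (k : ℝ) (n : ℕ) : ContDiff ℝ ∞ (II k n) := by
  rw [contDiff_infty_iff_deriv]
  refine ⟨fun y => (hasDerivAt_II k n y).differentiableAt, ?_⟩
  have : deriv (II k n) = aa k n := funext fun y => (hasDerivAt_II k n y).deriv
  rw [this]
  exact aa_contDiff k n

lemma hasDerivAt_LL (k : ℝ) (g n : ℕ) {y : ℝ} (hy : 0 < y) :
    HasDerivAt (LL k g n) (Lam k g n y) y := by
  have h1 := (hasDerivAt_II k n y).const_mul (-(1/2) : ℝ)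
  have h2 : HasDerivAt (fun y => 1 + T k y ^ 2) (2 * T k y * T1 k y) y := by
    have := ((hasDerivAt_T k hy).pow 2).const_add 1
    refine this.congr_deriv ?_
    ring
  have h3 := (h2.log (by positivity)).const_mul (g : ℝ)
  refine (h1.sub h3).congr_deriv ?_
  unfold Lam qq T1
  ring

lemma hasDerivAt_Lam (k : ℝ) (g n : ℕ) {y : ℝ} (hy : 0 < y) :
    HasDerivAt (Lam k g n) (Lam1 k g n y) y := by
  have h1 : HasDerivAt (aa k n) (deriv (aa k n) y) y :=
    ((aa_contDiff k n).differentiable (by norm_num)).differentiableAt.hasDerivAt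
  have hcos : HasDerivAt (fun y => cos (S k y) ^ 2) (-(S1 k y) * sin (2 * S k y)) y := by
    have := ((hasDerivAt_S k hy).cos).pow 2
    refine this.congr_deriv ?_
    rw [sin_two_mul]
    ring
  have h2 := (((hasDerivAt_S1 k hy).mul hcos).mul (hasDerivAt_qq k hy)).const_mul (8 * g : ℝ)
  have h := (h1.const_mul (-(1/2) : ℝ)).sub h2
  refine h.congr_deriv ?_
  unfold Lam1
  simp only [Pi.mul_apply]
  ring

lemma hasDerivAt_FF (k : ℝ) (g n : ℕ) {y : ℝ} (hy : 0 < y) :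
    HasDerivAt (FF k g n)
      (exp (LL k g n y) * (Lam k g n y * cos (S k y) - S1 k y * sin (S k y))) y := by
  have h := ((hasDerivAt_LL k g n hy).exp).mul (hasDerivAt_S k hy).cos
  refine h.congr_deriv ?_
  ring

def FF1 (k : ℝ) (g n : ℕ) (y : ℝ) : ℝ :=
  exp (LL k g n y) * (Lam k g n y * cos (S k y) - S1 k y * sin (S k y))

def FF2 (k : ℝ) (g n : ℕ) (y : ℝ) : ℝ :=
  exp (LL k g n y) * ((Lam1 k g n y + Lam k g n y ^ 2) * cos (S k y)
    - 2 * Lam k g n y * S1 k y * sin (S k y) - S2 k y * sin (S k y) - S1 k y ^ 2 * cos (S k y))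

lemma hasDerivAt_FF1 (k : ℝ) (g n : ℕ) {y : ℝ} (hy : 0 < y) :
    HasDerivAt (FF1 k g n) (FF2 k g n y) y := by
  have h1 := (hasDerivAt_Lam k g n hy).mul (hasDerivAt_S k hy).cos
  have h2 := (hasDerivAt_S1 k hy).mul (hasDerivAt_S k hy).sin
  have h := ((hasDerivAt_LL k g n hy).exp).mul (h1.sub h2)
  refine h.congr_deriv ?_
  unfold FF2
  simp only [Pi.mul_apply, Pi.sub_apply]
  ring

lemma LL_contDiffAt (k : ℝ) (g n : ℕ) {y : ℝ} (hy : 0 < y) : ContDiffAt ℝ ∞ (LL k g n) y := by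
  unfold LL
  refine (contDiffAt_const.mul (II_contDiff k n).contDiffAt).sub (contDiffAt_const.mul ?_)
  have h : ContDiffAt ℝ ∞ (fun y => 1 + T k y ^ 2) y := contDiffAt_const.add ((T_contDiffAt k hy).pow 2)
  exact h.log (by positivity)

lemma FF_contDiffAt (k : ℝ) (g n : ℕ) {y : ℝ} (hy : 0 < y) : ContDiffAt ℝ ∞ (FF k g n) y :=
  (LL_contDiffAt k g n hy).exp.mul (S_contDiffAt k hy).cos

lemma Lam_contDiffAt (k : ℝ) (g n : ℕ) {y : ℝ} (hy : 0 < y) : ContDiffAt ℝ ∞ (Lam k g n) y := by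
  unfold Lam
  exact (contDiffAt_const.mul (aa_contDiff k n).contDiffAt).sub
    (contDiffAt_const.mul (((S1_contDiffAt k hy).mul ((S_contDiffAt k hy).cos.pow 2)).mul
      (qq_contDiffAt k hy)))

lemma deriv_aa_contDiff (k : ℝ) (n : ℕ) : ContDiff ℝ ∞ (deriv (aa k n)) :=
  (contDiff_infty_iff_deriv.1 (aa_contDiff k n)).2

lemma Lam1_contDiffAt (k : ℝ) (g n : ℕ) {y : ℝ} (hy : 0 < y) : ContDiffAt ℝ ∞ (Lam1 k g n) y := by
  unfold Lam1
  have hS := S_contDiffAt k hy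
  have hS1 := S1_contDiffAt k hy
  have hS2 := S2_contDiffAt k hy
  have hq := qq_contDiffAt k hy
  have hT := T_contDiffAt k hy
  have hT1 := T1_contDiffAt k hy
  refine (contDiffAt_const.mul (deriv_aa_contDiff k n).contDiffAt).sub (contDiffAt_const.mul ?_)
  refine (((hS2.mul (hS.cos.pow 2)).mul hq).sub (((hS1.pow 2).mul
    ((contDiffAt_const.mul hS).sin)).mul hq)).add ((hS1.mul (hS.cos.pow 2)).mul ?_)
  exact (hT1.mul (contDiffAt_const.sub (hT.pow 2))).div ((contDiffAt_const.add (hT.pow 2)).pow 2)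
    (by positivity)

lemma tau_contDiffAt {s : ℝ} (hs : 0 ≤ s) : ContDiffAt ℝ ∞ tau s := by
  by_cases h : cos s = 0
  · have h1 : 1 < s := by
      by_contra h1
      have h1 := not_lt.mp h1
      have : 0 < cos s := cos_pos_of_mem_Ioo ⟨by linarith [pi_gt_three], by linarith [pi_gt_three]⟩
      linarith
    have : tau =ᶠ[𝓝 s] fun _ => 0 := by
      filter_upwards [Ioi_mem_nhds h1] with u hu
      simp [tau, chi_one (le_of_lt hu)]
    exact contDiffAt_const.congr_of_eventuallyEq this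
  · exact (contDiffAt_const.sub chi_contDiff.contDiffAt).mul (contDiffAt_tan.2 h)

lemma S_ge (k : ℝ) (hk : 0 ≤ k) {y : ℝ} (hy : 0 < y) : k / 2 * (y - 1) ≤ S k y := by
  unfold S
  have := Real.log_le_sub_one_of_pos hy
  nlinarith [mul_nonneg hk (sub_nonneg.2 this)]

lemma S_le (k : ℝ) (hk : 0 ≤ k) {y : ℝ} (hy : 1 ≤ y) : S k y ≤ k * (y - 1) := by
  unfold S
  have := Real.log_nonneg hy
  nlinarith [mul_nonneg hk this]

lemma S_nonneg (k : ℝ) (hk : 0 ≤ k) {y : ℝ} (hy : 1 ≤ y) : 0 ≤ S k y :=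
  le_trans (mul_nonneg (by linarith) (by linarith)) (S_ge k hk (by linarith))

lemma vv_contDiffAt (k : ℝ) (hk : 0 ≤ k) (g n : ℕ) {y : ℝ} (hy : 1 ≤ y) :
    ContDiffAt ℝ ∞ (vv k g n) y := by
  have hy0 : 0 < y := by linarith
  have hS := S_contDiffAt k hy0
  have hS1 := S1_contDiffAt k hy0
  have hS2 := S2_contDiffAt k hy0
  have hq := qq_contDiffAt k hy0
  have hm := mm_contDiffAt hy0
  have hB := BB_contDiffAt n hy0
  have hL := Lam_contDiffAt k g n hy0
  have hL1 := Lam1_contDiffAt k g n hy0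
  have ht : ContDiffAt ℝ ∞ (fun y => tau (S k y)) y :=
    (tau_contDiffAt (S_nonneg k hk hy)).comp y hS
  unfold vv
  exact ((((contDiffAt_const.sub ((hS1.pow 2).mul hm)).add (hm.mul (hL1.add (hL.pow 2)))).add
    (hB.mul hL)).sub (ht.mul ((hS2.mul hm).add (hS1.mul hB)))).add
    (contDiffAt_const.mul (((hq.mul (hS1.pow 2)).mul hm).mul (contDiffAt_const.mul hS).sin))

/-! ### the ordinary differential equation -/

lemma aa_mul (k : ℝ) (n : ℕ) {y : ℝ} (hy : 1 ≤ y) :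
    aa k n y * S1 k y * mm y = chi (S k y) * (S2 k y * mm y + S1 k y * BB n y) := by
  rcases eq_or_lt_of_le hy with h | h
  · rw [← h, S_one, chi_zero (by norm_num)]
    simp [mm]
  · rw [aa_eq_of_gt k n h]
    have h1 : (2 * y - 1) ≠ 0 := by linarith
    have h2 : (y ^ 2 - 1) ≠ 0 := by nlinarith
    have h3 : y ≠ 0 := by linarith
    have h1' : 0 < y * 2 - 1 := by linarith
    have e1 : 1 / (y * (2 * y - 1)) * (1 - 1 / (2 * y)) = 1 / (2 * y ^ 2) := by
      rw [div_mul_eq_mul_div, div_eq_div_iff (mul_ne_zero h3 h1) (by positivity)]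
      field_simp
    have e2 : (((n : ℝ) - 1) * y ^ 2 + 1) / (y * (y ^ 2 - 1)) * (1 - 1 / y ^ 2)
        = ((n : ℝ) - 1) / y + 1 / y ^ 3 := by
      field_simp
    have e3 : k / (2 * y ^ 2) = k * (1 / (2 * y ^ 2)) := by ring
    unfold S1 S2 mm BB DD
    rw [e3, ← e1, ← e2]
    ring

lemma cos_mul_tau {s : ℝ} (hs : 0 ≤ s) : cos s * tau s = (1 - chi s) * sin s := by
  by_cases h : cos s = 0
  · have h1 : 1 < s := by
      by_contra h1
      have h1 := not_lt.mp h1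
      have : 0 < cos s := cos_pos_of_mem_Ioo ⟨by linarith [pi_gt_three], by linarith [pi_gt_three]⟩
      linarith
    simp [tau, chi_one (le_of_lt h1)]
  · unfold tau
    rw [tan_eq_sin_div_cos]
    field_simp

lemma ode (k : ℝ) (hk : 0 ≤ k) (g n : ℕ) {y : ℝ} (hy : 1 ≤ y) :
    mm y * FF2 k g n y + BB n y * FF1 k g n y = (vv k g n y - k ^ 2) * FF k g n y := by
  have h1 := aa_mul k n hy
  have h2 := cos_mul_tau (S_nonneg k hk hy)
  unfold FF2 FF1 FF vv
  have h3 : sin (2 * S k y) = 2 * sin (S k y) * cos (S k y) := sin_two_mul _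
  have key : mm y * ((Lam1 k g n y + Lam k g n y ^ 2) * cos (S k y)
      - 2 * Lam k g n y * S1 k y * sin (S k y) - S2 k y * sin (S k y) - S1 k y ^ 2 * cos (S k y))
      + BB n y * (Lam k g n y * cos (S k y) - S1 k y * sin (S k y))
      = (k ^ 2 - S1 k y ^ 2 * mm y + mm y * (Lam1 k g n y + Lam k g n y ^ 2) + BB n y * Lam k g n y
    - tau (S k y) * (S2 k y * mm y + S1 k y * BB n y)
    + 8 * g * (qq k y * S1 k y ^ 2 * mm y * sin (2 * S k y)) - k ^ 2) * cos (S k y) := by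
    rw [h3]
    have h4 : mm y * (2 * Lam k g n y * S1 k y * sin (S k y)) =
        - (chi (S k y) * (S2 k y * mm y + S1 k y * BB n y)) * sin (S k y)
        - 16 * g * (S1 k y ^ 2 * cos (S k y) ^ 2 * qq k y * mm y * sin (S k y)) := by
      rw [← h1]
      unfold Lam
      ring
    linear_combination (-1 : ℝ) * h4 + (-(S2 k y * mm y + S1 k y * BB n y)) * (-h2)
  linear_combination exp (LL k g n y) * key

end H751R3.Nls
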