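import Pool.Agent.H751R3.Nls.A

/-!
# Bounds for the potential
-/

open Real Set Filter Topology MeasureTheory
open scoped ContDiff

noncomputable section

namespace H751R3.Nls

variable {k y : ℝ}

lemma mm_nonneg (hy : 1 ≤ y) : 0 ≤ mm y := by
  unfold mm
  have : 1 / y ^ 2 ≤ 1 := by
    rw [div_le_one (by positivity)]; nlinarith
  linarith

lemma mm_le_one (hy : 1 ≤ y) : mm y ≤ 1 := by
  unfold mm
  have : 0 ≤ 1 / y ^ 2 := by positivity
  linarith

lemma mm_le (hy : 1 ≤ y) : mm y ≤ 2 / y * (y - 1) := by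
  unfold mm
  have hy0 : 0 < y := by linarith
  have e : 2 / y * (y - 1) - (1 - 1 / y ^ 2) = (y - 1) ^ 2 / y ^ 2 := by
    field_simp; ring
  have : 0 ≤ (y - 1) ^ 2 / y ^ 2 := by positivity
  linarith

lemma BB_nonneg {n : ℕ} (hn : 1 ≤ n) (hy : 1 ≤ y) : 0 ≤ BB n y := by
  unfold BB
  have : (1:ℝ) ≤ n := by exact_mod_cast hn
  have h1 : 0 ≤ ((n:ℝ) - 1) / y := div_nonneg (by linarith) (by linarith)
  have h2 : 0 ≤ 1 / y ^ 3 := by positivity
  linarith

lemma BB_le {n : ℕ} (hy : 1 ≤ y) : BB n y ≤ n / y := by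
  unfold BB
  have hy0 : 0 < y := by linarith
  have h : 1 / y ^ 3 ≤ 1 / y := by
    apply one_div_le_one_div_of_le hy0
    nlinarith [sq_nonneg (y - 1), mul_nonneg (mul_nonneg hy0.le hy0.le) (sub_nonneg.2 hy)]
  have e : (n:ℝ) / y = ((n:ℝ) - 1) / y + 1 / y := by ring
  rw [e]; linarith

lemma S1_nonneg (hk : 0 ≤ k) (hy : 1 ≤ y) : 0 ≤ S1 k y := by
  unfold S1
  have : 1 / (2 * y) ≤ 1 := by rw [div_le_one (by positivity)]; linarith
  exact mul_nonneg hk (by linarith)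

lemma S1_le (hk : 0 ≤ k) (hy : 1 ≤ y) : S1 k y ≤ k := by
  unfold S1
  have : 0 ≤ 1 / (2 * y) := by positivity
  nlinarith

lemma S1_sq_le (hk : 0 ≤ k) (hy : 1 ≤ y) : S1 k y ^ 2 ≤ k ^ 2 :=
  pow_le_pow_left₀ (S1_nonneg hk hy) (S1_le hk hy) 2

lemma S2_nonneg (hk : 0 ≤ k) : 0 ≤ S2 k y := by unfold S2; positivity

lemma S2_le (hk : 0 ≤ k) (hy : 1 ≤ y) : S2 k y ≤ (1 / 2) * (k / y) := by
  unfold S2
  have hy0 : 0 < y := by linarith
  have : k / (2 * y ^ 2) ≤ k / (2 * y) := by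
    apply div_le_div_of_nonneg_left hk (by positivity)
    nlinarith
  calc k / (2 * y ^ 2) ≤ k / (2 * y) := this
    _ = (1 / 2) * (k / y) := by field_simp

lemma T_ge_aux {s : ℝ} (hs : 0 ≤ s) : s ≤ 2 * s + sin (2 * s) := by
  by_cases h : 2 * s ≤ π
  · have := sin_nonneg_of_nonneg_of_le_pi (by linarith : 0 ≤ 2 * s) h
    linarith
  · have h1 := neg_one_le_sin (2 * s)
    have h2 := not_le.mp h
    linarith [pi_gt_three]

lemma T_ge (hk : 0 ≤ k) (hy : 1 ≤ y) : k / 2 * (y - 1) ≤ T k y := by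
  have h := S_ge k hk (by linarith : 0 < y)
  exact le_trans h (T_ge_aux (S_nonneg k hk hy))

lemma T_nonneg (hk : 0 ≤ k) (hy : 1 ≤ y) : 0 ≤ T k y :=
  le_trans (mul_nonneg (by linarith) (by linarith)) (T_ge hk hy)

def rr (k y : ℝ) : ℝ := 1 / (1 + T k y ^ 2)

lemma rr_nonneg : 0 ≤ rr k y := by unfold rr; positivity

lemma qq_eq : qq k y = T k y * rr k y := by unfold qq rr; ring

lemma qq_nonneg (hk : 0 ≤ k) (hy : 1 ≤ y) : 0 ≤ qq k y := by
  rw [qq_eq]; exact mul_nonneg (T_nonneg hk hy) rr_nonneg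

lemma qq_le_half : qq k y ≤ 1 / 2 := by
  unfold qq
  rw [div_le_iff₀ (by positivity)]
  nlinarith [sq_nonneg (T k y - 1)]

lemma y_le (hk : 2 ≤ k) (hy : 1 ≤ y) : y ≤ 1 + T k y := by
  have := T_ge (by linarith : 0 ≤ k) hy
  nlinarith [mul_nonneg (sub_nonneg.2 hk) (sub_nonneg.2 hy)]

lemma qq_le (hk : 2 ≤ k) (hy : 1 ≤ y) : qq k y ≤ 2 / y := by
  have h := y_le hk hy
  have hT := T_nonneg (by linarith : 0 ≤ k) hy
  unfold qq
  rw [div_le_div_iff₀ (by positivity) (by linarith)]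
  nlinarith [sq_nonneg (T k y - 1), mul_nonneg hT (sub_nonneg.2 h)]

lemma rr_le (hk : 2 ≤ k) (hy : 1 ≤ y) : rr k y ≤ 2 / y := by
  have h := y_le hk hy
  unfold rr
  rw [div_le_div_iff₀ (by positivity) (by linarith)]
  nlinarith [sq_nonneg (T k y - 1)]

lemma sub_mul_qq (hk : 0 < k) (hy : 1 ≤ y) : (y - 1) * qq k y ≤ 2 / k := by
  have hT := T_ge hk.le hy
  have hT0 := T_nonneg hk.le hy
  have h1 : y - 1 ≤ 2 / k * T k y := by
    have : (y - 1) = 2 / k * (k / 2 * (y - 1)) := by field_simp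
    rw [this]
    exact mul_le_mul_of_nonneg_left hT (by positivity)
  have h2 : T k y * qq k y ≤ 1 := by
    unfold qq
    rw [← mul_div_assoc, div_le_one (by positivity)]
    nlinarith
  calc (y - 1) * qq k y ≤ (2 / k * T k y) * qq k y :=
        mul_le_mul_of_nonneg_right h1 (qq_nonneg hk.le hy)
    _ = 2 / k * (T k y * qq k y) := by ring
    _ ≤ 2 / k * 1 := mul_le_mul_of_nonneg_left h2 (by positivity)
    _ = 2 / k := by ring

lemma sub_mul_rr (hk : 0 < k) (hy : 1 ≤ y) : (y - 1) * rr k y ≤ 1 / k := by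
  have hT := T_ge hk.le hy
  have h1 : y - 1 ≤ 2 / k * T k y := by
    have : (y - 1) = 2 / k * (k / 2 * (y - 1)) := by field_simp
    rw [this]
    exact mul_le_mul_of_nonneg_left hT (by positivity)
  calc (y - 1) * rr k y ≤ (2 / k * T k y) * rr k y := mul_le_mul_of_nonneg_right h1 rr_nonneg
    _ = 2 / k * qq k y := by rw [qq_eq]; ring
    _ ≤ 2 / k * (1 / 2) := mul_le_mul_of_nonneg_left qq_le_half (by positivity)
    _ = 1 / k := by ring

lemma mm_mul_qq (hk : 0 < k) (hy : 1 ≤ y) : k ^ 2 * (mm y * qq k y) ≤ 4 * (k / y) := by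
  have hy0 : 0 < y := by linarith
  have h1 := sub_mul_qq hk hy
  have h2 : mm y * qq k y ≤ 2 / y * (2 / k) := by
    calc mm y * qq k y ≤ (2 / y * (y - 1)) * qq k y :=
          mul_le_mul_of_nonneg_right (mm_le hy) (qq_nonneg hk.le hy)
      _ = 2 / y * ((y - 1) * qq k y) := by ring
      _ ≤ 2 / y * (2 / k) := mul_le_mul_of_nonneg_left h1 (by positivity)
  calc k ^ 2 * (mm y * qq k y) ≤ k ^ 2 * (2 / y * (2 / k)) := mul_le_mul_of_nonneg_left h2 (by positivity)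
    _ = 4 * (k / y) := by field_simp; norm_num

lemma mm_mul_rr (hk : 0 < k) (hy : 1 ≤ y) : k ^ 2 * (mm y * rr k y) ≤ 2 * (k / y) := by
  have hy0 : 0 < y := by linarith
  have h1 := sub_mul_rr hk hy
  have h2 : mm y * rr k y ≤ 2 / y * (1 / k) := by
    calc mm y * rr k y ≤ (2 / y * (y - 1)) * rr k y :=
          mul_le_mul_of_nonneg_right (mm_le hy) rr_nonneg
      _ = 2 / y * ((y - 1) * rr k y) := by ring
      _ ≤ 2 / y * (1 / k) := mul_le_mul_of_nonneg_left h1 (by positivity)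
  calc k ^ 2 * (mm y * rr k y) ≤ k ^ 2 * (2 / y * (1 / k)) := mul_le_mul_of_nonneg_left h2 (by positivity)
    _ = 2 * (k / y) := by field_simp

/-! ### the functions `DD` and `aa` -/

lemma DD_mul (k : ℝ) (n : ℕ) (h : 1 < y) :
    DD n y * S1 k y * mm y = S2 k y * mm y + S1 k y * BB n y := by
  have h1 : (2 * y - 1) ≠ 0 := by linarith
  have h2 : (y ^ 2 - 1) ≠ 0 := by nlinarith
  have h3 : y ≠ 0 := by linarith
  have e1 : 1 / (y * (2 * y - 1)) * (1 - 1 / (2 * y)) = 1 / (2 * y ^ 2) := by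
    rw [div_mul_eq_mul_div, div_eq_div_iff (mul_ne_zero h3 h1) (by positivity)]
    field_simp
  have e2 : (((n : ℝ) - 1) * y ^ 2 + 1) / (y * (y ^ 2 - 1)) * (1 - 1 / y ^ 2)
      = ((n : ℝ) - 1) / y + 1 / y ^ 3 := by
    field_simp
  have e3 : k / (2 * y ^ 2) = k * (1 / (2 * y ^ 2)) := by ring
  unfold S1 S2 mm BB DD
  rw [e3, ← e1, ← e2]
  ring

lemma DD_nonneg {n : ℕ} (hn : 1 ≤ n) (h : 1 < y) : 0 ≤ DD n y := by
  have hn' : (1:ℝ) ≤ n := by exact_mod_cast hn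
  have h1 : 0 < y * (2 * y - 1) := mul_pos (by linarith) (by linarith)
  have h2 : 0 < y * (y ^ 2 - 1) := mul_pos (by linarith) (by nlinarith)
  unfold DD
  have : 0 ≤ ((n:ℝ) - 1) * y ^ 2 + 1 := by nlinarith [mul_nonneg (sub_nonneg.2 hn') (sq_nonneg y)]
  positivity

lemma supp_y (hk : 1 ≤ k) (hy : 1 < y) (hS : 1 / 2 ≤ S k y) : y ^ 2 / (y ^ 2 - 1) ≤ 1 + k := by
  have h1 := S_le k (by linarith) hy.le
  have h2 : 1 / 2 ≤ k * (y - 1) := le_trans hS h1
  rw [div_le_iff₀ (by nlinarith)]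
  nlinarith [mul_nonneg (by linarith : 0 ≤ k) (sq_nonneg (y - 1))]

lemma DD_le {n : ℕ} (hn : 1 ≤ n) (hk : 1 ≤ k) (hy : 1 < y) (hS : 1 / 2 ≤ S k y) :
    DD n y ≤ (1 + n * (1 + k)) / y := by
  have hn' : (1:ℝ) ≤ n := by exact_mod_cast hn
  have hy0 : 0 < y := by linarith
  have h := supp_y hk hy hS
  have h1 : 1 / (y * (2 * y - 1)) ≤ 1 / y := by
    apply one_div_le_one_div_of_le hy0
    nlinarith
  have hy2 : 0 < y ^ 2 - 1 := by nlinarith
  have h2 : (((n : ℝ) - 1) * y ^ 2 + 1) / (y * (y ^ 2 - 1)) ≤ n / y * (y ^ 2 / (y ^ 2 - 1)) := by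
    rw [div_mul_div_comm]
    apply div_le_div_of_nonneg_right _ (by positivity)
    nlinarith
  have h3 : n / y * (y ^ 2 / (y ^ 2 - 1)) ≤ n / y * (1 + k) :=
    mul_le_mul_of_nonneg_left h (by positivity)
  have e : (1 + n * (1 + k)) / y = 1 / y + n / y * (1 + k) := by ring
  unfold DD
  rw [e]
  linarith

lemma aa_nonneg {n : ℕ} (hn : 1 ≤ n) : 0 ≤ aa k n y := by
  by_cases h : y ≤ 1
  · simp [aa, h]
  · rw [aa_eq_of_gt k n (not_le.mp h)]
    exact mul_nonneg (chi_nonneg _) (DD_nonneg hn (not_le.mp h))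

lemma aa_le {n : ℕ} (hn : 1 ≤ n) (hk : 1 ≤ k) (hy : 1 ≤ y) : aa k n y ≤ (1 + n * (1 + k)) / y := by
  have hn' : (1:ℝ) ≤ n := by exact_mod_cast hn
  have hpos : 0 ≤ (1 + n * (1 + k)) / y := by
    apply div_nonneg _ (by linarith)
    nlinarith
  rcases eq_or_lt_of_le hy with h | h
  · rw [← h] at hpos ⊢
    simpa [aa] using hpos
  · rw [aa_eq_of_gt k n h]
    by_cases hS : S k y < 1 / 2
    · rw [chi_zero hS.le, zero_mul]; exact hpos
    · have := DD_le hn hk h (not_lt.mp hS)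
      calc chi (S k y) * DD n y ≤ 1 * DD n y :=
            mul_le_mul_of_nonneg_right (chi_le_one _) (DD_nonneg hn h)
        _ ≤ _ := by rw [one_mul]; exact this

lemma DD1_nonpos {n : ℕ} (hn : 1 ≤ n) (hy : 1 < y) : DD1 n y ≤ 0 := by
  have hn' : (1:ℝ) ≤ n := by exact_mod_cast hn
  unfold DD1
  have h1 : -(4 * y - 1) / (y * (2 * y - 1)) ^ 2 ≤ 0 :=
    div_nonpos_of_nonpos_of_nonneg (by linarith) (by positivity)
  have h2 : 0 ≤ (((n : ℝ) - 1) * y ^ 4 + ((n : ℝ) - 1) * y ^ 2 + 3 * y ^ 2 - 1) / (y * (y ^ 2 - 1)) ^ 2 := by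
    apply div_nonneg _ (by positivity)
    have a1 : 0 ≤ ((n : ℝ) - 1) * y ^ 4 := mul_nonneg (by linarith) (by positivity)
    have a2 : 0 ≤ ((n : ℝ) - 1) * y ^ 2 := mul_nonneg (by linarith) (by positivity)
    nlinarith
  linarith

lemma DD1_ge {n : ℕ} (hn : 1 ≤ n) (hk : 1 ≤ k) (hy : 1 < y) (hS : 1 / 2 ≤ S k y) :
    -((4 + (2 * n + 1) * (1 + k) ^ 2) / y) ≤ DD1 n y := by
  have hn' : (1:ℝ) ≤ n := by exact_mod_cast hn
  have hy0 : 0 < y := by linarith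
  have h := supp_y hk hy hS
  have hy2 : 0 < y ^ 2 - 1 := by nlinarith
  have h1 : (4 * y - 1) / (y * (2 * y - 1)) ^ 2 ≤ 4 / y := by
    rw [div_le_div_iff₀ (by have : 0 < y * (2 * y - 1) := mul_pos hy0 (by linarith); positivity) hy0]
    have : 1 ≤ (2 * y - 1) ^ 2 := by nlinarith
    have h3 : y ^ 2 * 1 ≤ y ^ 2 * (2 * y - 1) ^ 2 := mul_le_mul_of_nonneg_left this (by positivity)
    nlinarith
  have h2 : (((n : ℝ) - 1) * y ^ 4 + ((n : ℝ) - 1) * y ^ 2 + 3 * y ^ 2 - 1) / (y * (y ^ 2 - 1)) ^ 2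
      ≤ (2 * n + 1) * (1 + k) ^ 2 / y := by
    have a0 : y ^ 2 ≤ y ^ 4 := by nlinarith [mul_nonneg (sq_nonneg y) hy2.le]
    have a1 : ((n : ℝ) - 1) * y ^ 4 + ((n : ℝ) - 1) * y ^ 2 + 3 * y ^ 2 - 1 ≤ (2 * n + 1) * y ^ 4 := by
      nlinarith [mul_le_mul_of_nonneg_left a0 (by linarith : (0:ℝ) ≤ (n:ℝ) - 1)]
    have a2 : (y ^ 2 / (y ^ 2 - 1)) ^ 2 ≤ (1 + k) ^ 2 :=
      pow_le_pow_left₀ (by positivity) h 2
    calc (((n : ℝ) - 1) * y ^ 4 + ((n : ℝ) - 1) * y ^ 2 + 3 * y ^ 2 - 1) / (y * (y ^ 2 - 1)) ^ 2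
        ≤ ((2 * n + 1) * y ^ 4) / (y * (y ^ 2 - 1)) ^ 2 := div_le_div_of_nonneg_right a1 (by positivity)
      _ = (2 * n + 1) / y ^ 2 * (y ^ 2 / (y ^ 2 - 1)) ^ 2 := by field_simp
      _ ≤ (2 * n + 1) / y ^ 2 * (1 + k) ^ 2 := mul_le_mul_of_nonneg_left a2 (by positivity)
      _ ≤ (2 * n + 1) / y * (1 + k) ^ 2 := by
          apply mul_le_mul_of_nonneg_right _ (by positivity)
          apply div_le_div_of_nonneg_left (by positivity) hy0
          nlinarith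
      _ = _ := by ring
  have e : (4 + (2 * (n:ℝ) + 1) * (1 + k) ^ 2) / y = 4 / y + (2 * n + 1) * (1 + k) ^ 2 / y := by ring
  unfold DD1
  rw [e, neg_div]
  linarith

lemma chi_deriv_zero {s : ℝ} (h : s < 1 / 2) : deriv chi s = 0 := by
  have : chi =ᶠ[𝓝 s] fun _ => 0 := by
    filter_upwards [Iio_mem_nhds h] with u hu using chi_zero (le_of_lt hu)
  rw [this.deriv_eq]; simp

lemma S2S1_le {n : ℕ} (hn : 1 ≤ n) (hk : 0 ≤ k) (hy : 1 ≤ y) :
    S2 k y * mm y + S1 k y * BB n y ≤ (1 / 2 + n) * (k / y) := by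
  have h1 : S2 k y * mm y ≤ (1 / 2) * (k / y) * 1 :=
    mul_le_mul (S2_le hk hy) (mm_le_one hy) (mm_nonneg hy) (by positivity)
  have h2 : S1 k y * BB n y ≤ k * (n / y) :=
    mul_le_mul (S1_le hk hy) (BB_le hy) (BB_nonneg hn hy) hk
  have e : k * (n / y) = n * (k / y) := by ring
  rw [e] at h2
  linarith

lemma S2S1_nonneg {n : ℕ} (hn : 1 ≤ n) (hk : 0 ≤ k) (hy : 1 ≤ y) :
    0 ≤ S2 k y * mm y + S1 k y * BB n y :=
  add_nonneg (mul_nonneg (S2_nonneg hk) (mm_nonneg hy)) (mul_nonneg (S1_nonneg hk hy) (BB_nonneg hn hy))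

lemma mm_deriv_aa_le {n : ℕ} (hn : 1 ≤ n) (hk : 0 ≤ k) (hy : 1 ≤ y) {C : ℝ} (hC0 : 0 ≤ C)
    (hC : ∀ s, |deriv chi s| ≤ C) : mm y * deriv (aa k n) y ≤ C * ((1 / 2 + n) * (k / y)) := by
  have hpos : 0 ≤ C * ((1 / 2 + n) * (k / y)) := by positivity
  rcases eq_or_lt_of_le hy with h | h
  · rw [deriv_aa_of_le k n h.symm.le, mul_zero]; exact hpos
  · rw [deriv_aa_of_gt k n h]
    have h1 : mm y * (chi (S k y) * DD1 n y) ≤ 0 :=
      mul_nonpos_of_nonneg_of_nonpos (mm_nonneg hy)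
        (mul_nonpos_of_nonneg_of_nonpos (chi_nonneg _) (DD1_nonpos hn h))
    have h2 : mm y * (deriv chi (S k y) * S1 k y * DD n y)
        = deriv chi (S k y) * (DD n y * S1 k y * mm y) := by ring
    rw [mul_add, h2, DD_mul k n h]
    have h3 : deriv chi (S k y) * (S2 k y * mm y + S1 k y * BB n y)
        ≤ C * (S2 k y * mm y + S1 k y * BB n y) :=
      mul_le_mul_of_nonneg_right (le_trans (le_abs_self _) (hC _)) (S2S1_nonneg hn hk hy)
    have h4 : C * (S2 k y * mm y + S1 k y * BB n y) ≤ C * ((1 / 2 + n) * (k / y)) :=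
      mul_le_mul_of_nonneg_left (S2S1_le hn hk hy) hC0
    linarith

lemma abs_deriv_aa_le {n : ℕ} (hn : 1 ≤ n) (hk : 1 ≤ k) (hy : 1 ≤ y) {C : ℝ} (hC0 : 0 ≤ C)
    (hC : ∀ s, |deriv chi s| ≤ C) :
    |deriv (aa k n) y| ≤ (C * k * (1 + n * (1 + k)) + (4 + (2 * n + 1) * (1 + k) ^ 2)) / y := by
  have hy0 : 0 < y := by linarith
  have hn' : (1:ℝ) ≤ n := by exact_mod_cast hn
  have hpos : 0 ≤ (C * k * (1 + n * (1 + k)) + (4 + (2 * n + 1) * (1 + k) ^ 2)) / y := by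
    have : 0 ≤ k := by linarith
    positivity
  rcases eq_or_lt_of_le hy with h | h
  · rw [deriv_aa_of_le k n h.symm.le, abs_zero]; exact hpos
  · rw [deriv_aa_of_gt k n h]
    by_cases hS : S k y < 1 / 2
    · rw [chi_zero hS.le, chi_deriv_zero hS]
      simpa using hpos
    · have hS' := not_lt.mp hS
      have hD := DD_le hn hk h hS'
      have hD0 := DD_nonneg hn h
      have hD1 := DD1_ge hn hk h hS'
      have hD1' := DD1_nonpos hn h
      have hk0 : 0 ≤ k := by linarith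
      have h1 : |deriv chi (S k y) * S1 k y * DD n y| ≤ C * k * ((1 + n * (1 + k)) / y) := by
        rw [abs_mul, abs_mul, abs_of_nonneg (S1_nonneg hk0 hy), abs_of_nonneg hD0]
        exact mul_le_mul (mul_le_mul (hC _) (S1_le hk0 hy) (S1_nonneg hk0 hy) hC0) hD hD0
          (by positivity)
      have h2 : |chi (S k y) * DD1 n y| ≤ (4 + (2 * n + 1) * (1 + k) ^ 2) / y := by
        rw [abs_mul, abs_of_nonneg (chi_nonneg _), abs_of_nonpos hD1']
        calc chi (S k y) * -DD1 n y ≤ 1 * -DD1 n y :=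
              mul_le_mul_of_nonneg_right (chi_le_one _) (by linarith)
          _ ≤ _ := by linarith
      calc |deriv chi (S k y) * S1 k y * DD n y + chi (S k y) * DD1 n y|
          ≤ |deriv chi (S k y) * S1 k y * DD n y| + |chi (S k y) * DD1 n y| := abs_add_le _ _
        _ ≤ C * k * ((1 + n * (1 + k)) / y) + (4 + (2 * n + 1) * (1 + k) ^ 2) / y := add_le_add h1 h2
        _ = _ := by ring

lemma tau_nonneg {s : ℝ} (hs : 0 ≤ s) : 0 ≤ tau s := by
  unfold tau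
  by_cases h : 1 ≤ s
  · rw [chi_one h]; simp
  · apply mul_nonneg (by linarith [chi_le_one s])
    exact tan_nonneg_of_nonneg_of_le_pi_div_two hs (by linarith [not_le.mp h, pi_gt_three])

lemma tau_le {s : ℝ} (hs : 0 ≤ s) : tau s ≤ 2 := by
  unfold tau
  by_cases h : 1 ≤ s
  · rw [chi_one h]; simp
  · have h' := not_le.mp h
    have h1 : 1 / 2 ≤ cos s := by
      have := one_sub_sq_div_two_le_cos (x := s)
      nlinarith
    have h2 : tan s ≤ 2 := by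
      rw [tan_eq_sin_div_cos, div_le_iff₀ (by linarith)]
      linarith [sin_le_one s]
    have h3 : 0 ≤ tan s := tan_nonneg_of_nonneg_of_le_pi_div_two hs (by linarith [pi_gt_three])
    calc (1 - chi s) * tan s ≤ 1 * tan s :=
          mul_le_mul_of_nonneg_right (by linarith [chi_nonneg s]) h3
      _ ≤ 2 := by linarith

/-! ### lower bound -/

lemma low1 (hk : 0 ≤ k) (hy : 1 ≤ y) : 3 / 4 * k * (k / y) ≤ k ^ 2 - S1 k y ^ 2 * mm y := by
  have hy0 : 0 < y := by linarith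
  have h1 : S1 k y ^ 2 * mm y ≤ S1 k y ^ 2 * 1 :=
    mul_le_mul_of_nonneg_left (mm_le_one hy) (by positivity)
  have e : k ^ 2 - S1 k y ^ 2 * 1 = k * (k / y) - k * (k / y) / (4 * y) := by
    unfold S1; field_simp; ring
  have h2 : k * (k / y) / (4 * y) ≤ k * (k / y) / 4 := by
    apply div_le_div_of_nonneg_left (by positivity) (by norm_num)
    linarith
  nlinarith

lemma sin_ge (x : ℝ) : -1 ≤ sin x := neg_one_le_sin x

lemma cos_sq_le (x : ℝ) : cos x ^ 2 ≤ 1 := by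
  nlinarith [sin_sq_add_cos_sq x, sq_nonneg (sin x)]

lemma low2b {g : ℕ} (hk : 0 ≤ k) (hy : 1 ≤ y) :
    mm y * (8 * g * (S2 k y * cos (S k y) ^ 2 * qq k y)) ≤ 2 * g * (k / y) := by
  have hy0 : 0 < y := by linarith
  have h1 : S2 k y * cos (S k y) ^ 2 * qq k y ≤ (1 / 2) * (k / y) * 1 * (1 / 2) :=
    mul_le_mul (mul_le_mul (S2_le hk hy) (cos_sq_le _) (by positivity) (by positivity))
      qq_le_half (qq_nonneg hk hy) (by positivity)
  have h0 : 0 ≤ S2 k y * cos (S k y) ^ 2 * qq k y :=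
    mul_nonneg (mul_nonneg (S2_nonneg hk) (by positivity)) (qq_nonneg hk hy)
  calc mm y * (8 * g * (S2 k y * cos (S k y) ^ 2 * qq k y))
      ≤ 1 * (8 * g * (S2 k y * cos (S k y) ^ 2 * qq k y)) :=
        mul_le_mul_of_nonneg_right (mm_le_one hy) (by positivity)
    _ ≤ 1 * (8 * g * ((1 / 2) * (k / y) * 1 * (1 / 2))) := by
        apply mul_le_mul_of_nonneg_left _ (by norm_num)
        exact mul_le_mul_of_nonneg_left h1 (by positivity)
    _ = 2 * g * (k / y) := by ring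

lemma prod_bound (hk : 0 < k) (hy : 1 ≤ y) {u : ℝ} (hu : |u| ≤ 1) :
    |S1 k y ^ 2 * u * qq k y * mm y| ≤ 4 * (k / y) := by
  have h0 : 0 ≤ mm y * qq k y := mul_nonneg (mm_nonneg hy) (qq_nonneg hk.le hy)
  have e : S1 k y ^ 2 * u * qq k y * mm y = u * (S1 k y ^ 2 * (mm y * qq k y)) := by ring
  rw [e, abs_mul, abs_of_nonneg (by positivity : 0 ≤ S1 k y ^ 2 * (mm y * qq k y))]
  calc |u| * (S1 k y ^ 2 * (mm y * qq k y)) ≤ 1 * (S1 k y ^ 2 * (mm y * qq k y)) :=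
        mul_le_mul_of_nonneg_right hu (by positivity)
    _ ≤ 1 * (k ^ 2 * (mm y * qq k y)) := by
        apply mul_le_mul_of_nonneg_left _ (by norm_num)
        exact mul_le_mul_of_nonneg_right (S1_sq_le hk.le hy) h0
    _ ≤ 4 * (k / y) := by rw [one_mul]; exact mm_mul_qq hk hy

lemma frac_abs (t : ℝ) : |(1 - t ^ 2) / (1 + t ^ 2)| ≤ 1 := by
  rw [abs_div, abs_of_pos (by positivity : 0 < 1 + t ^ 2), div_le_one (by positivity), abs_le]
  constructor <;> nlinarith [sq_nonneg t]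

lemma d_abs (hk : 0 ≤ k) (hy : 1 ≤ y) :
    |S1 k y * cos (S k y) ^ 2 * (T1 k y * (1 - T k y ^ 2) / (1 + T k y ^ 2) ^ 2)| ≤ 4 * k ^ 2 * rr k y := by
  have e : S1 k y * cos (S k y) ^ 2 * (T1 k y * (1 - T k y ^ 2) / (1 + T k y ^ 2) ^ 2)
      = (4 * S1 k y ^ 2 * rr k y) * (cos (S k y) ^ 2 * cos (S k y) ^ 2 *
        ((1 - T k y ^ 2) / (1 + T k y ^ 2))) := by
    unfold T1 rr
    field_simp
  have h1 : |cos (S k y) ^ 2 * cos (S k y) ^ 2 * ((1 - T k y ^ 2) / (1 + T k y ^ 2))| ≤ 1 := by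
    rw [abs_mul]
    have a := cos_sq_le (S k y)
    have b : |cos (S k y) ^ 2 * cos (S k y) ^ 2| ≤ 1 := by
      rw [abs_of_nonneg (by positivity)]
      nlinarith [sq_nonneg (cos (S k y))]
    calc _ ≤ 1 * 1 := mul_le_mul b (frac_abs _) (abs_nonneg _) (by norm_num)
      _ = 1 := by norm_num
  have h0 : 0 ≤ 4 * S1 k y ^ 2 * rr k y := mul_nonneg (by positivity) rr_nonneg
  rw [e, abs_mul, abs_of_nonneg h0]
  calc 4 * S1 k y ^ 2 * rr k y * |cos (S k y) ^ 2 * cos (S k y) ^ 2 * ((1 - T k y ^ 2) / (1 + T k y ^ 2))|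
      ≤ 4 * S1 k y ^ 2 * rr k y * 1 := mul_le_mul_of_nonneg_left h1 h0
    _ ≤ 4 * k ^ 2 * rr k y := by
        rw [mul_one]
        apply mul_le_mul_of_nonneg_right _ rr_nonneg
        linarith [S1_sq_le hk hy]

lemma Lam_abs {n : ℕ} (g : ℕ) (hn : 1 ≤ n) (hk : 1 ≤ k) (hy : 1 ≤ y) :
    |Lam k g n y| ≤ 1 / 2 * ((1 + n * (1 + k)) / y) + 8 * g * (k * qq k y) := by
  have hk0 : 0 ≤ k := by linarith
  have h1 : |(-(1 / 2) : ℝ) * aa k n y| ≤ 1 / 2 * ((1 + n * (1 + k)) / y) := by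
    rw [abs_mul, abs_of_nonneg (aa_nonneg hn)]
    have : |(-(1/2) : ℝ)| = 1 / 2 := by norm_num
    rw [this]
    exact mul_le_mul_of_nonneg_left (aa_le hn hk hy) (by norm_num)
  have h2 : |8 * g * (S1 k y * cos (S k y) ^ 2 * qq k y)| ≤ 8 * g * (k * qq k y) := by
    have h0 : 0 ≤ S1 k y * cos (S k y) ^ 2 * qq k y :=
      mul_nonneg (mul_nonneg (S1_nonneg hk0 hy) (by positivity)) (qq_nonneg hk0 hy)
    rw [abs_of_nonneg (by positivity)]
    apply mul_le_mul_of_nonneg_left _ (by positivity)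
    calc S1 k y * cos (S k y) ^ 2 * qq k y ≤ k * 1 * qq k y := by
          apply mul_le_mul_of_nonneg_right _ (qq_nonneg hk0 hy)
          exact mul_le_mul (S1_le hk0 hy) (cos_sq_le _) (by positivity) hk0
      _ = k * qq k y := by ring
  unfold Lam
  calc _ ≤ |(-(1 / 2) : ℝ) * aa k n y| + |8 * g * (S1 k y * cos (S k y) ^ 2 * qq k y)| := abs_sub _ _
    _ ≤ _ := add_le_add h1 h2

/-- the constant in the lower bound -/
def KK (C : ℝ) (g n : ℕ) : ℝ :=
  1 / 2 * C * (1 / 2 + n) + 2 * g + 32 * g + 64 * g + n * ((1 + 2 * n) / 2 + 4 * g) + 2 * (1 / 2 + n)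
    + 32 * g

lemma vv_ge {n g : ℕ} (hn : 1 ≤ n) (hk : 1 ≤ k) (hy : 1 ≤ y) {C : ℝ} (hC0 : 0 ≤ C)
    (hC : ∀ s, |deriv chi s| ≤ C) :
    (3 / 4 * k - KK C g n) * (k / y) ≤ vv k g n y := by
  have hk0 : 0 < k := by linarith
  have hy0 : 0 < y := by linarith
  have hn' : (1:ℝ) ≤ n := by exact_mod_cast hn
  have l1 := low1 hk0.le hy
  have l2a := mm_deriv_aa_le hn hk0.le hy hC0 hC
  have l2b := low2b (g := g) hk0.le hy
  have l2c : -(32 * g * (k / y)) ≤ mm y * (8 * g * (S1 k y ^ 2 * sin (2 * S k y) * qq k y)) := by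
    have h := prod_bound hk0 hy (abs_sin_le_one (2 * S k y))
    have h' := (abs_le.1 h).1
    have e : mm y * (8 * g * (S1 k y ^ 2 * sin (2 * S k y) * qq k y))
        = 8 * g * (S1 k y ^ 2 * sin (2 * S k y) * qq k y * mm y) := by ring
    rw [e]
    have := mul_le_mul_of_nonneg_left h' (by positivity : (0:ℝ) ≤ 8 * g)
    linarith
  have l2d : mm y * (8 * g * (S1 k y * cos (S k y) ^ 2 *
      (T1 k y * (1 - T k y ^ 2) / (1 + T k y ^ 2) ^ 2))) ≤ 64 * g * (k / y) := by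
    have h := le_trans (le_abs_self _) (d_abs hk0.le hy)
    have h1 : mm y * (S1 k y * cos (S k y) ^ 2 *
      (T1 k y * (1 - T k y ^ 2) / (1 + T k y ^ 2) ^ 2)) ≤ mm y * (4 * k ^ 2 * rr k y) :=
      mul_le_mul_of_nonneg_left h (mm_nonneg hy)
    have h2 := mm_mul_rr hk0 hy
    have h3 : mm y * (4 * k ^ 2 * rr k y) ≤ 8 * (k / y) := by nlinarith
    have h4 := mul_le_mul_of_nonneg_left (le_trans h1 h3) (by positivity : (0:ℝ) ≤ 8 * g)
    linarith
  have l3 : 0 ≤ mm y * Lam k g n y ^ 2 := mul_nonneg (mm_nonneg hy) (sq_nonneg _)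
  have l4 : -(n * ((1 + 2 * n) / 2 + 4 * g) * (k / y)) ≤ BB n y * Lam k g n y := by
    have h1 : |Lam k g n y| ≤ k * ((1 + 2 * n) / 2 + 4 * g) := by
      refine le_trans (Lam_abs g hn hk hy) ?_
      have a1 : (1 + n * (1 + k)) / y ≤ (1 + 2 * n) * k := by
        rw [div_le_iff₀ hy0]
        have : 1 + n * (1 + k) ≤ (1 + 2 * n) * k := by nlinarith
        have : (1 + 2 * n) * k * 1 ≤ (1 + 2 * n) * k * y :=
          mul_le_mul_of_nonneg_left hy (by positivity)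
        linarith
      have a2 : k * qq k y ≤ k * (1 / 2) := mul_le_mul_of_nonneg_left qq_le_half hk0.le
      have a3 := mul_le_mul_of_nonneg_left a2 (by positivity : (0:ℝ) ≤ 8 * g)
      nlinarith
    have h2 : |BB n y * Lam k g n y| ≤ n / y * (k * ((1 + 2 * n) / 2 + 4 * g)) := by
      rw [abs_mul, abs_of_nonneg (BB_nonneg hn hy)]
      exact mul_le_mul (BB_le hy) h1 (abs_nonneg _) (by positivity)
    have h3 := (abs_le.1 h2).1
    have e : n / y * (k * ((1 + 2 * n) / 2 + 4 * g)) = n * ((1 + 2 * n) / 2 + 4 * g) * (k / y) := by ring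
    rw [e] at h3
    exact h3
  have l5 : tau (S k y) * (S2 k y * mm y + S1 k y * BB n y) ≤ 2 * ((1 / 2 + n) * (k / y)) :=
    mul_le_mul (tau_le (S_nonneg k hk0.le hy)) (S2S1_le hn hk0.le hy) (S2S1_nonneg hn hk0.le hy)
      (by norm_num)
  have l6 : -(32 * g * (k / y)) ≤ 8 * g * (qq k y * S1 k y ^ 2 * mm y * sin (2 * S k y)) := by
    have h := prod_bound hk0 hy (abs_sin_le_one (2 * S k y))
    have h' := (abs_le.1 h).1
    have e : 8 * g * (qq k y * S1 k y ^ 2 * mm y * sin (2 * S k y))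
        = 8 * g * (S1 k y ^ 2 * sin (2 * S k y) * qq k y * mm y) := by ring
    rw [e]
    have := mul_le_mul_of_nonneg_left h' (by positivity : (0:ℝ) ≤ 8 * g)
    linarith
  have expand : vv k g n y = (k ^ 2 - S1 k y ^ 2 * mm y) - 1 / 2 * (mm y * deriv (aa k n) y)
      - mm y * (8 * g * (S2 k y * cos (S k y) ^ 2 * qq k y))
      + mm y * (8 * g * (S1 k y ^ 2 * sin (2 * S k y) * qq k y))
      - mm y * (8 * g * (S1 k y * cos (S k y) ^ 2 * (T1 k y * (1 - T k y ^ 2) / (1 + T k y ^ 2) ^ 2)))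
      + mm y * Lam k g n y ^ 2 + BB n y * Lam k g n y
      - tau (S k y) * (S2 k y * mm y + S1 k y * BB n y)
      + 8 * g * (qq k y * S1 k y ^ 2 * mm y * sin (2 * S k y)) := by
    unfold vv Lam1; ring
  have eK : (3 / 4 * k - KK C g n) * (k / y) = 3 / 4 * k * (k / y) - 1 / 2 * (C * ((1 / 2 + n) * (k / y)))
      - 2 * g * (k / y) - 32 * g * (k / y) - 64 * g * (k / y)
      - n * ((1 + 2 * n) / 2 + 4 * g) * (k / y) - 2 * ((1 / 2 + n) * (k / y)) - 32 * g * (k / y) := by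
    unfold KK; ring
  rw [expand, eK]
  linarith

/-! ### upper bound -/

lemma vv_le {n g : ℕ} (hn : 1 ≤ n) (hk : 2 ≤ k) : ∃ C : ℝ, 0 ≤ C ∧ ∀ y : ℝ, 1 ≤ y → vv k g n y ≤ C / y := by
  obtain ⟨Cc, hC0, hC⟩ := chi_deriv_bdd
  have hk0 : 0 < k := by linarith
  have hn' : (1:ℝ) ≤ n := by exact_mod_cast hn
  set A1 : ℝ := Cc * k * (1 + n * (1 + k)) + (4 + (2 * n + 1) * (1 + k) ^ 2) with hA1
  set A2 : ℝ := 1 / 2 * (1 + n * (1 + k)) + 16 * g * k with hA2
  have hA1' : 0 ≤ A1 := by positivity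
  have hA2' : 0 ≤ A2 := by positivity
  refine ⟨2 * k ^ 2 + 1 / 2 * A1 + 2 * g * k + 16 * g * k ^ 2 + 64 * g * k ^ 2 + A2 ^ 2 + 16 * g * k ^ 2,
    by positivity, fun y hy => ?_⟩
  have hy0 : 0 < y := by linarith
  have hm1 := mm_le_one hy
  have hm0 := mm_nonneg hy
  have u1 : k ^ 2 - S1 k y ^ 2 * mm y ≤ 2 * k ^ 2 / y := by
    have e : 2 * k ^ 2 / y - (k ^ 2 - S1 k y ^ 2 * mm y)
        = k ^ 2 * (4 * y ^ 3 - 3 * y ^ 2 + 4 * y - 1) / (4 * y ^ 4) := by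
      unfold S1 mm; field_simp; ring
    have : 0 ≤ k ^ 2 * (4 * y ^ 3 - 3 * y ^ 2 + 4 * y - 1) / (4 * y ^ 4) := by
      apply div_nonneg _ (by positivity)
      apply mul_nonneg (by positivity)
      nlinarith [mul_nonneg (sq_nonneg y) (sub_nonneg.2 hy)]
    linarith
  have u2a : -(1 / 2) * (mm y * deriv (aa k n) y) ≤ 1 / 2 * A1 / y := by
    have h := abs_deriv_aa_le hn (by linarith : 1 ≤ k) hy hC0 hC
    have h1 : |mm y * deriv (aa k n) y| ≤ 1 * (A1 / y) := by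
      rw [abs_mul, abs_of_nonneg hm0]
      exact mul_le_mul hm1 h (abs_nonneg _) (by norm_num)
    have h2 := (abs_le.1 h1).1
    have e : 1 / 2 * A1 / y = 1 / 2 * (A1 / y) := by ring
    rw [e]
    linarith
  have u2b : 0 ≤ mm y * (8 * g * (S2 k y * cos (S k y) ^ 2 * qq k y)) := by
    have h0 : 0 ≤ S2 k y * cos (S k y) ^ 2 * qq k y :=
      mul_nonneg (mul_nonneg (S2_nonneg hk0.le) (by positivity)) (qq_nonneg hk0.le hy)
    positivity
  have hq : k ^ 2 * qq k y ≤ 2 * k ^ 2 / y := by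
    have := mul_le_mul_of_nonneg_left (qq_le hk hy) (by positivity : 0 ≤ k ^ 2)
    calc _ ≤ _ := this
      _ = _ := by ring
  have hterm : |S1 k y ^ 2 * sin (2 * S k y) * qq k y| ≤ 2 * k ^ 2 / y := by
    have e : S1 k y ^ 2 * sin (2 * S k y) * qq k y = sin (2 * S k y) * (S1 k y ^ 2 * qq k y) := by ring
    have h0 := qq_nonneg hk0.le hy
    rw [e, abs_mul, abs_of_nonneg (by positivity : 0 ≤ S1 k y ^ 2 * qq k y)]
    calc |sin (2 * S k y)| * (S1 k y ^ 2 * qq k y) ≤ 1 * (S1 k y ^ 2 * qq k y) :=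
          mul_le_mul_of_nonneg_right (abs_sin_le_one _) (by positivity)
      _ ≤ 1 * (k ^ 2 * qq k y) := by
          apply mul_le_mul_of_nonneg_left _ (by norm_num)
          exact mul_le_mul_of_nonneg_right (S1_sq_le hk0.le hy) h0
      _ ≤ _ := by linarith
  have u2c : mm y * (8 * g * (S1 k y ^ 2 * sin (2 * S k y) * qq k y)) ≤ 16 * g * k ^ 2 / y := by
    have h1 : |mm y * (S1 k y ^ 2 * sin (2 * S k y) * qq k y)| ≤ 1 * (2 * k ^ 2 / y) := by
      rw [abs_mul, abs_of_nonneg hm0]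
      exact mul_le_mul hm1 hterm (abs_nonneg _) (by norm_num)
    have h2 := mul_le_mul_of_nonneg_left (le_trans (le_abs_self _) h1) (by positivity : (0:ℝ) ≤ 8 * g)
    calc _ = 8 * g * (mm y * (S1 k y ^ 2 * sin (2 * S k y) * qq k y)) := by ring
      _ ≤ _ := h2
      _ = _ := by ring
  have u2d : -(mm y * (8 * g * (S1 k y * cos (S k y) ^ 2 *
      (T1 k y * (1 - T k y ^ 2) / (1 + T k y ^ 2) ^ 2)))) ≤ 64 * g * k ^ 2 / y := by
    have h := d_abs hk0.le hy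
    have h1 : |mm y * (S1 k y * cos (S k y) ^ 2 *
      (T1 k y * (1 - T k y ^ 2) / (1 + T k y ^ 2) ^ 2))| ≤ 1 * (4 * k ^ 2 * (2 / y)) := by
      rw [abs_mul, abs_of_nonneg hm0]
      refine mul_le_mul hm1 (le_trans h ?_) (abs_nonneg _) (by norm_num)
      exact mul_le_mul_of_nonneg_left (rr_le hk hy) (by positivity)
    have h2 := mul_le_mul_of_nonneg_left (neg_le_of_abs_le h1) (by positivity : (0:ℝ) ≤ 8 * g)
    have e2 : 64 * g * k ^ 2 / y = 8 * g * (1 * (4 * k ^ 2 * (2 / y))) := by ring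
    rw [e2]
    nlinarith
  have u3 : mm y * Lam k g n y ^ 2 ≤ A2 ^ 2 / y := by
    have h := Lam_abs g hn (by linarith : 1 ≤ k) hy
    have h1 : |Lam k g n y| ≤ A2 / y := by
      refine le_trans h ?_
      have := mul_le_mul_of_nonneg_left (qq_le hk hy) (by positivity : 0 ≤ 8 * g * k)
      have e : A2 / y = 1 / 2 * ((1 + n * (1 + k)) / y) + 8 * g * k * (2 / y) := by rw [hA2]; ring
      rw [e]
      nlinarith
    have h2 : Lam k g n y ^ 2 ≤ (A2 / y) ^ 2 := by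
      rw [← sq_abs]; exact pow_le_pow_left₀ (abs_nonneg _) h1 2
    have h3 : (A2 / y) ^ 2 ≤ A2 ^ 2 / y := by
      rw [div_pow]
      apply div_le_div_of_nonneg_left (by positivity) hy0
      nlinarith
    calc mm y * Lam k g n y ^ 2 ≤ 1 * Lam k g n y ^ 2 :=
          mul_le_mul_of_nonneg_right hm1 (sq_nonneg _)
      _ ≤ _ := by rw [one_mul]; exact le_trans h2 h3
  have u4 : BB n y * Lam k g n y ≤ 0 := by
    have h1 : Lam k g n y ≤ 0 := by
      unfold Lam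
      have a := aa_nonneg (k := k) (y := y) hn
      have b : 0 ≤ S1 k y * cos (S k y) ^ 2 * qq k y :=
        mul_nonneg (mul_nonneg (S1_nonneg hk0.le hy) (by positivity)) (qq_nonneg hk0.le hy)
      have c := mul_nonneg (by positivity : (0:ℝ) ≤ 8 * g) b
      linarith
    exact mul_nonpos_of_nonneg_of_nonpos (BB_nonneg hn hy) h1
  have u5 : 0 ≤ tau (S k y) * (S2 k y * mm y + S1 k y * BB n y) :=
    mul_nonneg (tau_nonneg (S_nonneg k hk0.le hy)) (S2S1_nonneg hn hk0.le hy)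
  have u6 : 8 * g * (qq k y * S1 k y ^ 2 * mm y * sin (2 * S k y)) ≤ 16 * g * k ^ 2 / y := by
    calc _ = mm y * (8 * g * (S1 k y ^ 2 * sin (2 * S k y) * qq k y)) := by ring
      _ ≤ _ := u2c
  have expand : vv k g n y = (k ^ 2 - S1 k y ^ 2 * mm y) + -(1 / 2) * (mm y * deriv (aa k n) y)
      - mm y * (8 * g * (S2 k y * cos (S k y) ^ 2 * qq k y))
      + mm y * (8 * g * (S1 k y ^ 2 * sin (2 * S k y) * qq k y))
      + -(mm y * (8 * g * (S1 k y * cos (S k y) ^ 2 * (T1 k y * (1 - T k y ^ 2) / (1 + T k y ^ 2) ^ 2))))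
      + mm y * Lam k g n y ^ 2 + BB n y * Lam k g n y
      - tau (S k y) * (S2 k y * mm y + S1 k y * BB n y)
      + 8 * g * (qq k y * S1 k y ^ 2 * mm y * sin (2 * S k y)) := by
    unfold vv Lam1; ring
  have eK : (2 * k ^ 2 + 1 / 2 * A1 + 2 * g * k + 16 * g * k ^ 2 + 64 * g * k ^ 2 + A2 ^ 2
      + 16 * g * k ^ 2) / y = 2 * k ^ 2 / y + 1 / 2 * A1 / y + 2 * g * k / y + 16 * g * k ^ 2 / y
      + 64 * g * k ^ 2 / y + A2 ^ 2 / y + 16 * g * k ^ 2 / y := by ring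
  have hx : 0 ≤ 2 * g * k / y := by positivity
  rw [expand, eK]
  linarith

end H751R3.Nls
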