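import Pool.Agent.H751R3.Nls.B

/-!
# The radial Laplacian and the profile
-/

open Real Set Filter Topology MeasureTheory InnerProductSpace
open scoped ContDiff Laplacian

noncomputable section

namespace H751R3.Nls

/-- the euclidean space of dimension `n` -/
abbrev En (n : ℕ) := EuclideanSpace ℝ (Fin n)

variable {n : ℕ}

def rho (x : En n) : ℝ := √(1 + ‖x‖ ^ 2)

lemma rho_sq (x : En n) : rho x ^ 2 = 1 + ‖x‖ ^ 2 := by
  unfold rho; exact Real.sq_sqrt (by positivity)

lemma one_le_rho (x : En n) : 1 ≤ rho x := by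
  unfold rho
  rw [Real.one_le_sqrt]
  nlinarith [sq_nonneg ‖x‖]

lemma rho_pos (x : En n) : 0 < rho x := by linarith [one_le_rho x]

lemma norm_le_rho (x : En n) : ‖x‖ ≤ rho x := by
  unfold rho
  apply Real.le_sqrt_of_sq_le
  linarith

lemma rho_le (x : En n) : rho x ≤ 1 + ‖x‖ := by
  unfold rho
  exact sqrt_one_add_norm_sq_le x

lemma rho_contDiff : ContDiff ℝ ∞ (rho : En n → ℝ) := by
  unfold rho
  apply ContDiff.sqrt
  · exact contDiff_const.add (contDiff_norm_sq ℝ)
  · intro x; positivity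

lemma hasFDerivAt_rho (x : En n) : HasFDerivAt rho ((1 / rho x) • innerSL ℝ x) x := by
  have h1 : HasFDerivAt (fun x : En n => 1 + ‖x‖ ^ 2) ((2:ℝ) • innerSL ℝ x) x := by
    have := (hasStrictFDerivAt_norm_sq x).hasFDerivAt
    exact (this.const_add 1).congr_fderiv (by rw [two_nsmul, two_smul])
  have h2 := h1.sqrt (by positivity)
  refine h2.congr_fderiv ?_
  ext v
  simp only [rho, _root_.smul_apply, innerSL_apply_apply, smul_eq_mul]
  field_simp

lemma hasFDerivAt_comp_rho {F F1 : ℝ → ℝ} (h : ∀ y, 0 < y → HasDerivAt F (F1 y) y) (x : En n) :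
    HasFDerivAt (fun x => F (rho x)) ((F1 (rho x) / rho x) • innerSL ℝ x) x := by
  have := (h _ (rho_pos x)).comp_hasFDerivAt x (hasFDerivAt_rho x)
  refine this.congr_fderiv ?_
  rw [smul_smul]
  congr 1
  ring

lemma laplacian_radial {F F1 F2 : ℝ → ℝ} (h : ∀ y, 0 < y → HasDerivAt F (F1 y) y)
    (h2 : ∀ y, 0 < y → HasDerivAt F1 (F2 y) y) (x : En n) :
    Δ (fun x : En n => F (rho x)) x = mm (rho x) * F2 (rho x) + BB n (rho x) * F1 (rho x) := by
  have hρ := rho_pos x
  have e1 : fderiv ℝ (fun x : En n => F (rho x)) = fun x => (F1 (rho x) / rho x) • innerSL ℝ x := by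
    funext z; exact (hasFDerivAt_comp_rho h z).fderiv
  have hH : ∀ y, 0 < y → HasDerivAt (fun y => F1 y / y) (F2 y / y - F1 y / y ^ 2) y := by
    intro y hy
    have := (h2 y hy).div (hasDerivAt_id y) hy.ne'
    refine this.congr_deriv ?_
    simp only [id]
    field_simp
  have hc : HasFDerivAt (fun z : En n => F1 (rho z) / rho z)
      (((F2 (rho x) / rho x - F1 (rho x) / rho x ^ 2) / rho x) • innerSL ℝ x) x :=
    hasFDerivAt_comp_rho (F := fun y => F1 y / y) hH x
  have hi : HasFDerivAt (fun z : En n => (innerSL ℝ z : En n →L[ℝ] ℝ)) (innerSL ℝ) x :=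
    (innerSL ℝ : En n →L[ℝ] En n →L[ℝ] ℝ).hasFDerivAt
  have e2 : fderiv ℝ (fun x : En n => (F1 (rho x) / rho x) • innerSL ℝ x) x = _ := (hc.smul hi).fderiv
  rw [laplacian_eq_iteratedFDeriv_orthonormalBasis _ (EuclideanSpace.basisFun (Fin n) ℝ)]
  show ∑ i, iteratedFDeriv ℝ 2 (fun x : En n => F (rho x)) x
      ![(EuclideanSpace.basisFun (Fin n) ℝ) i, (EuclideanSpace.basisFun (Fin n) ℝ) i] = _
  have e3 : ∀ i : Fin n, iteratedFDeriv ℝ 2 (fun x : En n => F (rho x)) x
      ![(EuclideanSpace.basisFun (Fin n) ℝ) i, (EuclideanSpace.basisFun (Fin n) ℝ) i]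
      = (F2 (rho x) / rho x - F1 (rho x) / rho x ^ 2) / rho x * x i ^ 2 + F1 (rho x) / rho x := by
    intro i
    have e5 : ((innerSL ℝ) (EuclideanSpace.single i (1:ℝ)) : En n →L[ℝ] ℝ)
        (EuclideanSpace.single i 1) = 1 := by
      rw [innerSL_apply_apply]; simp
    rw [iteratedFDeriv_two_apply, e1, e2]
    simp only [Matrix.cons_val_zero, Matrix.cons_val_one, EuclideanSpace.basisFun_apply,
      _root_.add_apply, _root_.smul_apply, ContinuousLinearMap.smulRight_apply]
    erw [e5]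
    simp [EuclideanSpace.inner_single_right]
    ring
  rw [Finset.sum_congr rfl (fun i _ => e3 i), Finset.sum_add_distrib, ← Finset.mul_sum,
    ← EuclideanSpace.real_norm_sq_eq]
  have e4 : ‖x‖ ^ 2 = rho x ^ 2 - 1 := by rw [rho_sq]; ring
  rw [e4]
  unfold mm BB
  simp only [Finset.sum_const, Finset.card_univ, Fintype.card_fin, nsmul_eq_mul]
  field_simp
  ring

end H751R3.Nls
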