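import Pool.Agent.H751R3.Nls.C

/-!
# The profile, the potential, decay
-/

open Real Set Filter Topology MeasureTheory InnerProductSpace
open scoped ContDiff Laplacian

noncomputable section

namespace H751R3.Nls

variable {n : ℕ} {k : ℝ} {g : ℕ}

/-- the profile -/
def phi (k : ℝ) (g : ℕ) (x : En n) : ℝ := FF k g n (rho x)

/-- the potential -/
def pot (k : ℝ) (g : ℕ) (x : En n) : ℝ := vv k g n (rho x) - phi k g x ^ 2

lemma phi_contDiff : ContDiff ℝ ∞ (phi k g : En n → ℝ) := by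
  rw [contDiff_iff_contDiffAt]
  intro x
  exact (FF_contDiffAt k g n (rho_pos x)).comp x rho_contDiff.contDiffAt

lemma pot_contDiff (hk : 0 ≤ k) : ContDiff ℝ ∞ (pot k g : En n → ℝ) := by
  rw [contDiff_iff_contDiffAt]
  intro x
  exact ((vv_contDiffAt k hk g n (one_le_rho x)).comp x rho_contDiff.contDiffAt).sub
    (phi_contDiff.contDiffAt.pow 2)

lemma laplacian_phi (hk : 0 ≤ k) (x : En n) :
    Δ (phi k g : En n → ℝ) x = (pot k g x + phi k g x ^ 2 - k ^ 2) * phi k g x := by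
  have h := laplacian_radial (n := n) (F := FF k g n) (F1 := FF1 k g n) (F2 := FF2 k g n)
    (fun y hy => hasDerivAt_FF k g n hy) (fun y hy => hasDerivAt_FF1 k g n hy) x
  have h2 := ode k hk g n (one_le_rho x)
  have e : (phi k g : En n → ℝ) = fun x => FF k g n (rho x) := rfl
  rw [e, h, h2]
  unfold pot phi
  ring

lemma hasFDerivAt_phi (x : En n) :
    HasFDerivAt (phi k g : En n → ℝ) ((FF1 k g n (rho x) / rho x) • innerSL ℝ x) x :=
  hasFDerivAt_comp_rho (F := FF k g n) (F1 := FF1 k g n) (fun y hy => hasDerivAt_FF k g n hy) x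

/-! ### size -/

lemma II_nonneg (hn : 1 ≤ n) {y : ℝ} (hy : 1 ≤ y) : 0 ≤ II k n y :=
  intervalIntegral.integral_nonneg hy fun _ _ => aa_nonneg hn

lemma exp_LL_le (hn : 1 ≤ n) (hk : 2 ≤ k) {y : ℝ} (hy : 1 ≤ y) : exp (LL k g n y) ≤ (2 / y) ^ g := by
  have h1 : exp (LL k g n y) ≤ exp (g * Real.log (rr k y)) := by
    apply exp_le_exp.2
    have e : Real.log (rr k y) = - Real.log (1 + T k y ^ 2) := by
      unfold rr; rw [one_div, Real.log_inv]
    rw [e]
    unfold LL
    have := II_nonneg (k := k) hn hy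
    linarith
  have hr : 0 < rr k y := by unfold rr; positivity
  rw [← Real.log_pow, exp_log (by positivity)] at h1
  exact le_trans h1 (pow_le_pow_left₀ hr.le (rr_le hk hy) g)

lemma abs_phi_le (hn : 1 ≤ n) (hk : 2 ≤ k) (x : En n) : |phi k g x| ≤ (2 / rho x) ^ g := by
  unfold phi FF
  rw [abs_mul, abs_of_pos (exp_pos _)]
  calc exp (LL k g n (rho x)) * |cos (S k (rho x))| ≤ exp (LL k g n (rho x)) * 1 :=
        mul_le_mul_of_nonneg_left (abs_cos_le_one _) (exp_pos _).le
    _ ≤ _ := by rw [mul_one]; exact exp_LL_le hn hk (one_le_rho x)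

lemma exists_grad_bound (hn : 1 ≤ n) (hk : 2 ≤ k) : ∃ C : ℝ, 0 ≤ C ∧ ∀ x : En n,
    ‖fderiv ℝ (phi k g : En n → ℝ) x‖ ≤ C * (2 / rho x) ^ g := by
  refine ⟨1 / 2 * (1 + n * (1 + k)) + 8 * g * (k * (1 / 2)) + k, by positivity, fun x => ?_⟩
  have hρ := rho_pos x
  have h1 := one_le_rho x
  have hk0 : 0 ≤ k := by linarith
  rw [(hasFDerivAt_phi x).fderiv, norm_smul, innerSL_apply_norm, norm_div, Real.norm_eq_abs,
    Real.norm_eq_abs, abs_of_pos hρ]
  have h2 : |FF1 k g n (rho x)| ≤ (1 / 2 * (1 + n * (1 + k)) + 8 * g * (k * (1 / 2)) + k) * (2 / rho x) ^ g := by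
    unfold FF1
    rw [abs_mul, abs_of_pos (exp_pos _), mul_comm]
    have a1 : |Lam k g n (rho x) * cos (S k (rho x)) - S1 k (rho x) * sin (S k (rho x))|
        ≤ 1 / 2 * (1 + n * (1 + k)) + 8 * g * (k * (1 / 2)) + k := by
      have b1 : |Lam k g n (rho x) * cos (S k (rho x))| ≤ 1 / 2 * (1 + n * (1 + k)) + 8 * g * (k * (1 / 2)) := by
        rw [abs_mul]
        have c1 := Lam_abs (k := k) (y := rho x) g hn (by linarith) h1
        have c2 : (1 + n * (1 + k)) / rho x ≤ 1 + n * (1 + k) := by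
          apply div_le_self _ h1
          positivity
        have c3 : k * qq k (rho x) ≤ k * (1 / 2) := mul_le_mul_of_nonneg_left qq_le_half hk0
        have c4 := mul_le_mul_of_nonneg_left c3 (by positivity : (0:ℝ) ≤ 8 * g)
        calc |Lam k g n (rho x)| * |cos (S k (rho x))| ≤ |Lam k g n (rho x)| * 1 :=
              mul_le_mul_of_nonneg_left (abs_cos_le_one _) (abs_nonneg _)
          _ ≤ _ := by linarith
      have b2 : |S1 k (rho x) * sin (S k (rho x))| ≤ k := by
        rw [abs_mul, abs_of_nonneg (S1_nonneg hk0 h1)]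
        calc S1 k (rho x) * |sin (S k (rho x))| ≤ k * 1 :=
              mul_le_mul (S1_le hk0 h1) (abs_sin_le_one _) (abs_nonneg _) hk0
          _ = k := mul_one _
      calc _ ≤ _ := abs_sub _ _
        _ ≤ _ := add_le_add b1 b2
    exact mul_le_mul a1 (exp_LL_le hn hk h1) (exp_pos _).le (by positivity)
  calc |FF1 k g n (rho x)| / rho x * ‖x‖ ≤ |FF1 k g n (rho x)| / rho x * rho x :=
        mul_le_mul_of_nonneg_left (norm_le_rho x) (by positivity)
    _ = |FF1 k g n (rho x)| := by field_simp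
    _ ≤ _ := h2

lemma phi_zero_ne : phi k g (0 : En n) ≠ 0 := by
  unfold phi FF rho
  simp [S_one, (exp_pos _).ne']

lemma pot_pos (hn : 1 ≤ n) (hg : 1 ≤ g) (hk : 4 ≤ k) {C : ℝ} (hC0 : 0 ≤ C)
    (hC : ∀ s, |deriv chi s| ≤ C) (hK : 2 * KK C g n ≤ k) (x : En n) : 0 < pot k g x := by
  have h1 := one_le_rho x
  have hρ := rho_pos x
  have h2 := vv_ge (k := k) (y := rho x) (g := g) hn (by linarith) h1 hC0 hC
  have h3 : 4 / rho x ≤ (3 / 4 * k - KK C g n) * (k / rho x) := by
    have a : 1 ≤ 3 / 4 * k - KK C g n := by linarith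
    have b : 4 / rho x ≤ k / rho x := div_le_div_of_nonneg_right hk hρ.le
    have c : 0 ≤ k / rho x := by positivity
    nlinarith
  have h4 : phi k g x ^ 2 ≤ 2 / rho x := by
    have hr : rr k (rho x) ≤ 2 / rho x := rr_le (by linarith) h1
    have hr1 : rr k (rho x) ≤ 1 := by
      unfold rr
      rw [div_le_one (by positivity)]
      nlinarith [sq_nonneg (T k (rho x))]
    have hr0 : 0 < rr k (rho x) := by unfold rr; positivity
    have e1 : exp (LL k g n (rho x)) ≤ rr k (rho x) ^ g := by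
      have : exp (LL k g n (rho x)) ≤ exp (g * Real.log (rr k (rho x))) := by
        apply exp_le_exp.2
        have e : Real.log (rr k (rho x)) = - Real.log (1 + T k (rho x) ^ 2) := by
          unfold rr; rw [one_div, Real.log_inv]
        rw [e]
        unfold LL
        have := II_nonneg (k := k) hn h1
        linarith
      rwa [← Real.log_pow, exp_log (by positivity)] at this
    have e2 : rr k (rho x) ^ g ≤ rr k (rho x) := by
      calc rr k (rho x) ^ g ≤ rr k (rho x) ^ 1 := pow_le_pow_of_le_one hr0.le hr1 hg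
        _ = _ := pow_one _
    have e3 : |phi k g x| ≤ rr k (rho x) := by
      unfold phi FF
      rw [abs_mul, abs_of_pos (exp_pos _)]
      calc exp (LL k g n (rho x)) * |cos (S k (rho x))| ≤ exp (LL k g n (rho x)) * 1 :=
            mul_le_mul_of_nonneg_left (abs_cos_le_one _) (exp_pos _).le
        _ ≤ _ := by rw [mul_one]; exact le_trans e1 e2
    have e4 : phi k g x ^ 2 ≤ rr k (rho x) ^ 2 := by
      rw [← sq_abs]; exact pow_le_pow_left₀ (abs_nonneg _) e3 2
    nlinarith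
  have h5 : 2 / rho x < 4 / rho x := by
    apply div_lt_div_of_pos_right _ hρ
    norm_num
  unfold pot
  linarith

lemma pot_le (hn : 1 ≤ n) (hk : 2 ≤ k) : ∃ C : ℝ, ∀ x : En n, pot k g x ≤ C / (1 + ‖x‖) := by
  obtain ⟨C, hC0, hC⟩ := vv_le (g := g) hn hk
  refine ⟨2 * C, fun x => ?_⟩
  have h1 := one_le_rho x
  have h2 : pot k g x ≤ C / rho x := by
    have := hC _ h1
    unfold pot
    linarith [sq_nonneg (phi k g x)]
  have h3 : C / rho x ≤ 2 * C / (1 + ‖x‖) := by
    rw [div_le_div_iff₀ (rho_pos x) (by positivity)]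
    have := norm_le_rho x
    nlinarith
  exact le_trans h2 h3

/-! ### integrability -/

lemma integrable_weight (n : ℕ) : Integrable (fun x : En n => ((rho x ^ 2) ^ (n + 1))⁻¹) := by
  have h := integrable_rpow_neg_one_add_norm_sq (E := En n) (μ := volume) (r := 2 * (n + 1))
    (by simp; linarith [(Nat.cast_nonneg n : (0:ℝ) ≤ n)])
  refine h.congr (Eventually.of_forall fun x => ?_)
  simp only
  rw [rho_sq]
  have e : -(2 * ((n:ℝ) + 1)) / 2 = -((n + 1 : ℕ) : ℝ) := by push_cast; ring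
  rw [e, rpow_neg (by positivity), rpow_natCast]

lemma weight_bound {N : ℕ} {u : ℝ} {x : En n} {C : ℝ} (hC : 0 ≤ C)
    (hu : |u| ≤ C * (2 / rho x) ^ (N + n + 1)) :
    (rho x ^ 2) ^ N * u ^ 2 ≤ C ^ 2 * 4 ^ (N + n + 1) * ((rho x ^ 2) ^ (n + 1))⁻¹ := by
  have hρ := rho_pos x
  have h1 : u ^ 2 ≤ (C * (2 / rho x) ^ (N + n + 1)) ^ 2 := by
    rw [← sq_abs]; exact pow_le_pow_left₀ (abs_nonneg _) hu 2
  calc (rho x ^ 2) ^ N * u ^ 2 ≤ (rho x ^ 2) ^ N * (C * (2 / rho x) ^ (N + n + 1)) ^ 2 :=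
        mul_le_mul_of_nonneg_left h1 (by positivity)
    _ = C ^ 2 * 4 ^ (N + n + 1) * ((rho x ^ 2) ^ (n + 1))⁻¹ := by
        have e4 : (4:ℝ) = 2 ^ 2 := by norm_num
        rw [e4, mul_pow, div_pow, div_pow, ← pow_mul, ← pow_mul, ← pow_mul, ← pow_mul, ← pow_mul]
        have : rho x ^ ((N + n + 1) * 2) = rho x ^ (2 * N) * rho x ^ (2 * (n + 1)) := by
          rw [← pow_add]; congr 1; ring
        rw [this]
        field_simp
        ring

lemma integrable_of_bound {u : En n → ℝ} (hu : Continuous u) {N : ℕ} {C : ℝ} (hC : 0 ≤ C)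
    (h : ∀ x, |u x| ≤ C * (2 / rho x) ^ (N + n + 1)) :
    Integrable (fun x : En n => (rho x ^ 2) ^ N * u x ^ 2) := by
  have hρc : Continuous (rho : En n → ℝ) := rho_contDiff.continuous
  refine Integrable.mono' ((integrable_weight n).const_mul (C ^ 2 * 4 ^ (N + n + 1))) ?_ ?_
  · exact (by fun_prop : Continuous (fun x : En n => (rho x ^ 2) ^ N * u x ^ 2)).aestronglyMeasurable
  · refine Eventually.of_forall fun x => ?_
    rw [Real.norm_eq_abs, abs_of_nonneg (by positivity)]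
    exact weight_bound hC (h x)

end H751R3.Nls
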