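import Pool.Agent.H751R3.Nls.D

/-!
# Functions with weighted bounds for all derivatives
-/

open Real Set Filter Topology MeasureTheory InnerProductSpace
open scoped ContDiff Laplacian

noncomputable section

namespace H751R3.Nls

section general

variable {D : Type*} [NormedAddCommGroup D] [NormedSpace ℝ D]
  {F : Type*} [NormedAddCommGroup F] [NormedSpace ℝ F]
  {G : Type*} [NormedAddCommGroup G] [NormedSpace ℝ G]
  {H : Type*} [NormedAddCommGroup H] [NormedSpace ℝ H]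

/-- the derivatives of `f` of order `≤ N` are bounded by multiples of `w` -/
def Sy (w : D → ℝ) (N : ℕ) (f : D → F) : Prop :=
  ∀ i ≤ N, ∃ C : ℝ, 0 ≤ C ∧ ∀ x, ‖iteratedFDeriv ℝ i f x‖ ≤ C * w x

/-- `f` is smooth and all its derivatives are bounded by multiples of `w` -/
def Sym (w : D → ℝ) (f : D → F) : Prop := ContDiff ℝ ∞ f ∧ ∀ N, Sy w N f

lemma Sy.mono {w : D → ℝ} {N M : ℕ} {f : D → F} (h : Sy w N f) (hM : M ≤ N) : Sy w M f :=
  fun i hi => h i (le_trans hi hM)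

lemma Sy.weight {w w' : D → ℝ} {N : ℕ} {f : D → F} (h : Sy w N f) {K : ℝ} (hK : 0 ≤ K)
    (hw : ∀ x, w x ≤ K * w' x) : Sy w' N f := by
  intro i hi
  obtain ⟨C, hC0, hC⟩ := h i hi
  refine ⟨C * K, by positivity, fun x => le_trans (hC x) ?_⟩
  rw [mul_assoc]
  exact mul_le_mul_of_nonneg_left (hw x) hC0

lemma Sy.add {w : D → ℝ} {N : ℕ} {f g : D → F} (hf : ContDiff ℝ ∞ f) (hg : ContDiff ℝ ∞ g)
    (h1 : Sy w N f) (h2 : Sy w N g) : Sy w N (fun x => f x + g x) := by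
  intro i hi
  obtain ⟨C, hC0, hC⟩ := h1 i hi
  obtain ⟨C', hC0', hC'⟩ := h2 i hi
  refine ⟨C + C', by positivity, fun x => ?_⟩
  have hi' : (i : ℕ∞ω) ≤ ∞ := WithTop.coe_le_coe.2 le_top
  have e : iteratedFDeriv ℝ i (fun x => f x + g x) x
      = iteratedFDeriv ℝ i f x + iteratedFDeriv ℝ i g x :=
    iteratedFDeriv_add_apply (hf.contDiffAt.of_le hi') (hg.contDiffAt.of_le hi')
  rw [e]
  calc _ ≤ _ := norm_add_le _ _
    _ ≤ C * w x + C' * w x := add_le_add (hC x) (hC' x)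
    _ = _ := by ring

lemma Sy.const_smul {w : D → ℝ} {N : ℕ} {f : D → F} (hf : ContDiff ℝ ∞ f) (c : ℝ)
    (h1 : Sy w N f) : Sy w N (fun x => c • f x) := by
  intro i hi
  obtain ⟨C, hC0, hC⟩ := h1 i hi
  refine ⟨|c| * C, by positivity, fun x => ?_⟩
  have hi' : (i : ℕ∞ω) ≤ ∞ := WithTop.coe_le_coe.2 le_top
  have e : iteratedFDeriv ℝ i (fun x => c • f x) x = c • iteratedFDeriv ℝ i f x :=
    iteratedFDeriv_const_smul_apply (hf.contDiffAt.of_le hi')
  rw [e, norm_smul, Real.norm_eq_abs, mul_assoc]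
  exact mul_le_mul_of_nonneg_left (hC x) (abs_nonneg _)

lemma Sy.bilin (B : F →L[ℝ] G →L[ℝ] H) {w w' : D → ℝ} {N : ℕ} {f : D → F} {g : D → G}
    (hw : ∀ x, 0 ≤ w x) (hf : ContDiff ℝ ∞ f) (hg : ContDiff ℝ ∞ g) (h1 : Sy w N f)
    (h2 : Sy w' N g) : Sy (fun x => w x * w' x) N (fun x => B (f x) (g x)) := by
  intro i hi
  choose! C hC0 hC using h1
  choose! C' hC0' hC' using h2
  refine ⟨‖B‖ * ∑ j ∈ Finset.range (i + 1), (i.choose j : ℝ) * C j * C' (i - j), ?_, fun x => ?_⟩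
  · refine mul_nonneg B.opNorm_nonneg (Finset.sum_nonneg fun j hj => ?_)
    have hj' : j ≤ i := Nat.lt_succ_iff.1 (Finset.mem_range.1 hj)
    have := hC0 j (le_trans hj' hi)
    have := hC0' (i - j) (le_trans (Nat.sub_le _ _) hi)
    positivity
  · have hi' : (i : ℕ∞ω) ≤ ∞ := WithTop.coe_le_coe.2 le_top
    refine le_trans (B.norm_iteratedFDeriv_le_of_bilinear hf hg x hi') ?_
    rw [mul_assoc]
    refine mul_le_mul_of_nonneg_left ?_ B.opNorm_nonneg
    rw [Finset.sum_mul]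
    refine Finset.sum_le_sum fun j hj => ?_
    have hj' : j ≤ i := Nat.lt_succ_iff.1 (Finset.mem_range.1 hj)
    have a1 := hC j (le_trans hj' hi) x
    have a2 := hC' (i - j) (le_trans (Nat.sub_le _ _) hi) x
    have a0 := mul_nonneg (hC0 j (le_trans hj' hi)) (hw x)
    calc (i.choose j : ℝ) * ‖iteratedFDeriv ℝ j f x‖ * ‖iteratedFDeriv ℝ (i - j) g x‖
        = (i.choose j : ℝ) * (‖iteratedFDeriv ℝ j f x‖ * ‖iteratedFDeriv ℝ (i - j) g x‖) := by ring
      _ ≤ (i.choose j : ℝ) * ((C j * w x) * (C' (i - j) * w' x)) := by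
          refine mul_le_mul_of_nonneg_left ?_ (by positivity)
          exact mul_le_mul a1 a2 (norm_nonneg _) a0
      _ = _ := by ring

lemma Sy.succ {w : D → ℝ} {N : ℕ} {f : D → F} (h0 : ∃ C : ℝ, 0 ≤ C ∧ ∀ x, ‖f x‖ ≤ C * w x)
    (h1 : Sy w N (fderiv ℝ f)) : Sy w (N + 1) f := by
  intro i hi
  rcases Nat.eq_zero_or_pos i with h | h
  · subst h
    obtain ⟨C, hC0, hC⟩ := h0
    exact ⟨C, hC0, fun x => by rw [norm_iteratedFDeriv_zero]; exact hC x⟩
  · obtain ⟨j, rfl⟩ : ∃ j, i = j + 1 := ⟨i - 1, by omega⟩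
    obtain ⟨C, hC0, hC⟩ := h1 j (by omega)
    exact ⟨C, hC0, fun x => by rw [← norm_iteratedFDeriv_fderiv]; exact hC x⟩

lemma Sy.zero {w : D → ℝ} {f : D → F} (h0 : ∃ C : ℝ, 0 ≤ C ∧ ∀ x, ‖f x‖ ≤ C * w x) :
    Sy w 0 f := by
  intro i hi
  obtain rfl : i = 0 := by omega
  obtain ⟨C, hC0, hC⟩ := h0
  exact ⟨C, hC0, fun x => by rw [norm_iteratedFDeriv_zero]; exact hC x⟩

lemma Sy.comp {w : D → ℝ} {N : ℕ} {h : ℝ → ℝ} {f : D → ℝ} (hh : ContDiff ℝ ∞ h)
    (hf : ContDiff ℝ ∞ f) (h1 : ∀ i ≤ N + 1, ∃ C : ℝ, 0 ≤ C ∧ ∀ x, ‖iteratedFDeriv ℝ i h (f x)‖ ≤ C * w x)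
    (h2 : Sy (fun _ => 1) N (fderiv ℝ f)) (hw : ∀ x, 0 ≤ w x) : Sy w (N + 1) (fun x => h (f x)) := by
  intro i hi
  choose! C hC0 hC using h1
  choose! C' hC0' hC' using h2
  set Dd : ℝ := 1 + ∑ j ∈ Finset.range (N + 1), C' j with hDd
  set Cc : ℝ := ∑ j ∈ Finset.range (N + 2), C j with hCc
  have hCc0 : 0 ≤ Cc := Finset.sum_nonneg fun j hj => hC0 j (by have := Finset.mem_range.1 hj; omega)
  have hS0 : 0 ≤ ∑ j ∈ Finset.range (N + 1), C' j :=
    Finset.sum_nonneg fun j hj => hC0' j (by have := Finset.mem_range.1 hj; omega)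
  have hD1 : 1 ≤ Dd := by linarith
  refine ⟨i.factorial * Cc * Dd ^ i, by positivity, fun x => ?_⟩
  have hi' : (i : ℕ∞ω) ≤ ∞ := WithTop.coe_le_coe.2 le_top
  have e := norm_iteratedFDeriv_comp_le (g := h) (f := f) hh hf hi' x (C := Cc * w x) (D := Dd)
    (fun j hj => ?_) (fun j hj1 hj => ?_)
  · calc _ ≤ _ := e
      _ = _ := by ring
  · refine le_trans (hC j (by omega) x) (mul_le_mul_of_nonneg_right ?_ (hw x))
    exact Finset.single_le_sum (f := C) (fun l hl => hC0 l (by have := Finset.mem_range.1 hl; omega))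
      (Finset.mem_range.2 (by omega))
  · obtain ⟨l, rfl⟩ : ∃ l, j = l + 1 := ⟨j - 1, by omega⟩
    rw [← norm_iteratedFDeriv_fderiv]
    have a1 := hC' l (by omega) x
    have a2 : C' l ≤ ∑ j ∈ Finset.range (N + 1), C' j :=
      Finset.single_le_sum (f := C') (fun m hm => hC0' m (by have := Finset.mem_range.1 hm; omega))
        (Finset.mem_range.2 (by omega))
    have a3 : Dd ≤ Dd ^ (l + 1) := by
      calc Dd = Dd ^ 1 := (pow_one _).symm
        _ ≤ _ := pow_le_pow_right₀ hD1 (by omega)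
    linarith

lemma Sy.congr {w : D → ℝ} {N : ℕ} {f g : D → F} (h : Sy w N f) (e : f = g) : Sy w N g := e ▸ h

/-! closure properties of `Sym` for real valued functions -/

variable {w w' : D → ℝ} {f g : D → ℝ}

lemma Sym.weight (h : Sym w f) {K : ℝ} (hK : 0 ≤ K) (hw : ∀ x, w x ≤ K * w' x) : Sym w' f :=
  ⟨h.1, fun N => (h.2 N).weight hK hw⟩

lemma Sym.add (h1 : Sym w f) (h2 : Sym w g) : Sym w (fun x => f x + g x) :=
  ⟨h1.1.add h2.1, fun N => (h1.2 N).add h1.1 h2.1 (h2.2 N)⟩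

lemma Sym.const_mul (c : ℝ) (h1 : Sym w f) : Sym w (fun x => c * f x) :=
  ⟨contDiff_const.mul h1.1, fun N => (h1.2 N).const_smul h1.1 c⟩

lemma Sym.neg (h1 : Sym w f) : Sym w (fun x => - f x) := by
  have := h1.const_mul (-1)
  simpa using this

lemma Sym.sub (h1 : Sym w f) (h2 : Sym w g) : Sym w (fun x => f x - g x) := by
  have := h1.add h2.neg
  simpa [sub_eq_add_neg] using this

lemma Sym.mul (hw : ∀ x, 0 ≤ w x) (h1 : Sym w f) (h2 : Sym w' g) :
    Sym (fun x => w x * w' x) (fun x => f x * g x) :=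
  ⟨h1.1.mul h2.1, fun N => (h1.2 N).bilin (ContinuousLinearMap.mul ℝ ℝ) hw h1.1 h2.1 (h2.2 N)⟩

/-- bounded with all derivatives -/
abbrev Bd (f : D → ℝ) : Prop := Sym (fun _ => (1:ℝ)) f

lemma Bd.mul_sym (h1 : Bd f) (h2 : Sym w g) : Sym w (fun x => f x * g x) := by
  have := Sym.mul (fun _ => zero_le_one) h1 h2
  exact this.weight zero_le_one (fun x => by simp)

lemma Sym.mul_bd (hw : ∀ x, 0 ≤ w x) (h1 : Sym w f) (h2 : Bd g) : Sym w (fun x => f x * g x) := by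
  have := Sym.mul hw h1 h2
  exact this.weight zero_le_one (fun x => by simp)

lemma Bd.mul (h1 : Bd f) (h2 : Bd g) : Bd (fun x => f x * g x) := h1.mul_sym h2

lemma Bd.sq (h1 : Bd f) : Bd (fun x => f x ^ 2) := by
  have := h1.mul h1
  simpa [_root_.sq] using this

lemma bd_const (c : ℝ) : Bd (fun _ : D => c) := by
  refine ⟨contDiff_const, fun N i hi => ⟨|c|, abs_nonneg _, fun x => ?_⟩⟩
  rcases Nat.eq_zero_or_pos i with h | h
  · subst h; simp
  · rw [iteratedFDeriv_const_of_ne (by omega)]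
    simp

lemma Bd.const_add (c : ℝ) (h1 : Bd f) : Bd (fun x => c + f x) := (bd_const c).add h1
lemma Bd.const_sub (c : ℝ) (h1 : Bd f) : Bd (fun x => c - f x) := (bd_const c).sub h1

lemma bd_of_compact {f : D → ℝ} (hf : ContDiff ℝ ∞ f) (hs : HasCompactSupport f) : Bd f := by
  refine ⟨hf, fun N i hi => ?_⟩
  have hi' : (i : ℕ∞ω) ≤ ∞ := WithTop.coe_le_coe.2 le_top
  have hc : Continuous (iteratedFDeriv ℝ i f) := hf.continuous_iteratedFDeriv hi'
  obtain ⟨C, hC⟩ := hc.bounded_above_of_compact_support (hs.iteratedFDeriv i)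
  exact ⟨max C 0, le_max_right _ _, fun x => by rw [mul_one]; exact le_trans (hC x) (le_max_left _ _)⟩

/-- composition of a function with bounded derivatives and one with bounded derivatives of order
at least one -/
lemma Bd.comp {h : ℝ → ℝ} (hh : Bd h) (hf : ContDiff ℝ ∞ f) (h2 : ∀ N, Sy (fun _ => (1:ℝ)) N (fderiv ℝ f)) :
    Bd (fun x => h (f x)) := by
  refine ⟨hh.1.comp hf, fun N => ?_⟩
  refine (Sy.comp (N := N) hh.1 hf (fun i hi => ?_) (h2 N) (fun _ => zero_le_one)).mono (by omega)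
  obtain ⟨C, hC0, hC⟩ := hh.2 (N + 1) i hi
  exact ⟨C, hC0, fun x => hC (f x)⟩

lemma Sym.comp' {v : ℝ → ℝ} {h : ℝ → ℝ} (hh : Sym v h) (hf : ContDiff ℝ ∞ f)
    (h2 : ∀ N, Sy (fun _ => (1:ℝ)) N (fderiv ℝ f)) {K : ℝ} (hK : 0 ≤ K) (hw0 : ∀ x, 0 ≤ w x)
    (hw : ∀ x, v (f x) ≤ K * w x) : Sym w (fun x => h (f x)) := by
  refine ⟨hh.1.comp hf, fun N => ?_⟩
  refine (Sy.comp (N := N) hh.1 hf (fun i hi => ?_) (h2 N) hw0).mono (by omega)
  obtain ⟨C, hC0, hC⟩ := hh.2 (N + 1) i hi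
  refine ⟨C * K, by positivity, fun x => le_trans (hC (f x)) ?_⟩
  rw [mul_assoc]
  exact mul_le_mul_of_nonneg_left (hw x) hC0

/-- bounded functions have bounded derivatives -/
lemma Bd.fderiv_sy (h : Bd f) (N : ℕ) : Sy (fun _ => (1:ℝ)) N (fderiv ℝ f) := by
  intro i hi
  obtain ⟨C, hC0, hC⟩ := h.2 (N + 1) (i + 1) (by omega)
  exact ⟨C, hC0, fun x => by rw [norm_iteratedFDeriv_fderiv]; exact hC x⟩

end general

/-! ### functions on the line -/

section line

lemma Sy.succ_deriv {w : ℝ → ℝ} {N : ℕ} {f : ℝ → ℝ} (h0 : ∃ C : ℝ, 0 ≤ C ∧ ∀ x, |f x| ≤ C * w x)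
    (h1 : Sy w N (deriv f)) : Sy w (N + 1) f := by
  intro i hi
  rcases Nat.eq_zero_or_pos i with h | h
  · subst h
    obtain ⟨C, hC0, hC⟩ := h0
    exact ⟨C, hC0, fun x => by rw [norm_iteratedFDeriv_zero]; exact hC x⟩
  · obtain ⟨j, rfl⟩ : ∃ j, i = j + 1 := ⟨i - 1, by omega⟩
    obtain ⟨C, hC0, hC⟩ := h1 j (by omega)
    refine ⟨C, hC0, fun x => ?_⟩
    have := hC x
    rw [norm_iteratedFDeriv_eq_norm_iteratedDeriv] at this ⊢
    rwa [iteratedDeriv_succ']

lemma sin_cos_bd : Bd (sin : ℝ → ℝ) ∧ Bd (cos : ℝ → ℝ) := by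
  have key : ∀ N, Sy (fun _ : ℝ => (1:ℝ)) N sin ∧ Sy (fun _ : ℝ => (1:ℝ)) N cos := by
    intro N
    induction N with
    | zero =>
      exact ⟨Sy.zero ⟨1, zero_le_one, fun x => by simpa using abs_sin_le_one x⟩,
        Sy.zero ⟨1, zero_le_one, fun x => by simpa using abs_cos_le_one x⟩⟩
    | succ N ih =>
      refine ⟨Sy.succ_deriv ⟨1, zero_le_one, fun x => by simpa using abs_sin_le_one x⟩ ?_,
        Sy.succ_deriv ⟨1, zero_le_one, fun x => by simpa using abs_cos_le_one x⟩ ?_⟩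
      · rw [Real.deriv_sin]; exact ih.2
      · have e : deriv cos = fun x : ℝ => (-1 : ℝ) • sin x := by funext x; simp
        rw [e]
        exact ih.1.const_smul contDiff_sin (-1)
  exact ⟨⟨contDiff_sin, fun N => (key N).1⟩, ⟨contDiff_cos, fun N => (key N).2⟩⟩

def wz (z : ℝ) : ℝ := 1 / √(1 + z ^ 2)
def rz (z : ℝ) : ℝ := 1 / (1 + z ^ 2)
def hz (z : ℝ) : ℝ := z / (1 + z ^ 2)

lemma wz_pos (z : ℝ) : 0 < wz z := by unfold wz; positivity
lemma wz_le_one (z : ℝ) : wz z ≤ 1 := by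
  unfold wz
  rw [div_le_one (by positivity), Real.one_le_sqrt]
  nlinarith [sq_nonneg z]
lemma rz_eq (z : ℝ) : rz z = wz z ^ 2 := by
  unfold rz wz
  rw [div_pow, Real.sq_sqrt (by positivity), one_pow]
lemma rz_le (z : ℝ) : rz z ≤ wz z := by
  rw [rz_eq]; nlinarith [wz_pos z, wz_le_one z]
lemma abs_hz_le (z : ℝ) : |hz z| ≤ wz z := by
  have e : hz z = z * wz z * wz z := by
    have := rz_eq z
    unfold rz at this
    unfold hz
    calc z / (1 + z ^ 2) = z * (1 / (1 + z ^ 2)) := by ring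
      _ = _ := by rw [this]; ring
  have h1 : |z * wz z| ≤ 1 := by
    rw [abs_mul, abs_of_pos (wz_pos z)]
    unfold wz
    rw [mul_one_div, div_le_one (by positivity)]
    exact Real.abs_le_sqrt (by linarith)
  rw [e, abs_mul, abs_of_pos (wz_pos z)]
  calc |z * wz z| * wz z ≤ 1 * wz z := mul_le_mul_of_nonneg_right h1 (wz_pos z).le
    _ = _ := one_mul _

lemma rz_contDiff : ContDiff ℝ ∞ rz := by
  unfold rz
  exact contDiff_const.div (by fun_prop) (fun z => by positivity)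
lemma hz_contDiff : ContDiff ℝ ∞ hz := by
  unfold hz
  exact contDiff_id.div (by fun_prop) (fun z => by positivity)

lemma hasDerivAt_rz (z : ℝ) : HasDerivAt rz (-2 * (hz z * rz z)) z := by
  have h1 : HasDerivAt (fun z : ℝ => 1 + z ^ 2) (2 * z) z := by
    have := (hasDerivAt_pow 2 z).const_add 1
    refine this.congr_deriv (by simp)
  have h := (hasDerivAt_const z (1:ℝ)).div h1 (by positivity)
  refine h.congr_deriv ?_
  unfold hz rz
  field_simp
  ring

lemma hasDerivAt_hz (z : ℝ) : HasDerivAt hz (rz z + (-2) * (hz z * hz z)) z := by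
  have h1 : HasDerivAt (fun z : ℝ => 1 + z ^ 2) (2 * z) z := by
    have := (hasDerivAt_pow 2 z).const_add 1
    refine this.congr_deriv (by simp)
  have h := (hasDerivAt_id z).div h1 (by positivity)
  refine h.congr_deriv ?_
  unfold hz rz
  simp only [id]
  field_simp
  ring

lemma rz_hz_sym : Sym wz rz ∧ Sym wz hz := by
  have key : ∀ N, Sy wz N rz ∧ Sy wz N hz := by
    intro N
    have b1 : ∃ C : ℝ, 0 ≤ C ∧ ∀ x, |rz x| ≤ C * wz x :=
      ⟨1, zero_le_one, fun x => by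
        rw [one_mul, abs_of_nonneg (by unfold rz; positivity)]; exact rz_le x⟩
    have b2 : ∃ C : ℝ, 0 ≤ C ∧ ∀ x, |hz x| ≤ C * wz x :=
      ⟨1, zero_le_one, fun x => by rw [one_mul]; exact abs_hz_le x⟩
    induction N with
    | zero => exact ⟨Sy.zero b1, Sy.zero b2⟩
    | succ N ih =>
      have m1 : Sy wz N (fun z => hz z * rz z) :=
        (ih.2.bilin (ContinuousLinearMap.mul ℝ ℝ) (fun z => (wz_pos z).le) hz_contDiff rz_contDiff
          ih.1).weight zero_le_one (fun z => by nlinarith [wz_pos z, wz_le_one z])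
      have m2 : Sy wz N (fun z => hz z * hz z) :=
        (ih.2.bilin (ContinuousLinearMap.mul ℝ ℝ) (fun z => (wz_pos z).le) hz_contDiff hz_contDiff
          ih.2).weight zero_le_one (fun z => by nlinarith [wz_pos z, wz_le_one z])
      refine ⟨Sy.succ_deriv b1 ?_, Sy.succ_deriv b2 ?_⟩
      · have e : deriv rz = fun z => (-2 : ℝ) • (hz z * rz z) := by
          funext z; rw [(hasDerivAt_rz z).deriv]; simp
        rw [e]
        exact m1.const_smul (hz_contDiff.mul rz_contDiff) _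
      · have e : deriv hz = fun z => rz z + (-2 : ℝ) • (hz z * hz z) := by
          funext z; rw [(hasDerivAt_hz z).deriv]; simp
        rw [e]
        have c1 : ContDiff ℝ ∞ (fun z => (-2 : ℝ) * (hz z * hz z)) :=
          contDiff_const.mul (hz_contDiff.mul hz_contDiff)
        exact ih.1.add rz_contDiff c1 (m2.const_smul (hz_contDiff.mul hz_contDiff) _)
  exact ⟨⟨rz_contDiff, fun N => (key N).1⟩, ⟨hz_contDiff, fun N => (key N).2⟩⟩

lemma deriv_chi_compact : HasCompactSupport (deriv chi) := by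
  refine HasCompactSupport.intro (isCompact_Icc (a := (1/2:ℝ)) (b := 1)) fun s hs => ?_
  by_cases h0 : s < 1 / 2
  · exact chi_deriv_zero h0
  · have h1 : 1 < s := by
      by_contra h1
      exact hs ⟨not_lt.mp h0, not_lt.mp h1⟩
    have : chi =ᶠ[𝓝 s] fun _ => 1 := by
      filter_upwards [Ioi_mem_nhds h1] with u hu using chi_one (le_of_lt hu)
    rw [this.deriv_eq]; simp

lemma deriv_chi_bd : Bd (deriv chi) :=
  bd_of_compact (contDiff_infty_iff_deriv.1 chi_contDiff).2 deriv_chi_compact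

lemma chi_bd : Bd chi := by
  refine ⟨chi_contDiff, fun N => ?_⟩
  refine (Sy.succ_deriv (N := N) ⟨1, zero_le_one, fun x => ?_⟩ (deriv_chi_bd.2 N)).mono (by omega)
  rw [mul_one, abs_of_nonneg (chi_nonneg x)]; exact chi_le_one x

end line

end H751R3.Nls
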