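import Pool.Agent.H751R3.Nls.F

/-!
# The potential is a symbol of order `-1`
-/

open Real Set Filter Topology MeasureTheory InnerProductSpace
open scoped ContDiff Laplacian

noncomputable section

namespace H751R3.Nls

variable {n : ℕ} {k : ℝ} {g : ℕ}

/-- the inner product as a bilinear map -/
def IL (n : ℕ) : En n →L[ℝ] En n →L[ℝ] ℝ := innerSL ℝ

lemma IL_apply (x v : En n) : IL n x v = inner ℝ x v := rfl

def uu (x : En n) : ℝ := 1 / rho x
def WW (x : En n) : En n →L[ℝ] ℝ := uu x • IL n x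

lemma uu_pos (x : En n) : 0 < uu x := by unfold uu; exact one_div_pos.2 (rho_pos x)
lemma uu_le_one (x : En n) : uu x ≤ 1 := by
  unfold uu; rw [div_le_one (rho_pos x)]; exact one_le_rho x

lemma uu_contDiff : ContDiff ℝ ∞ (uu : En n → ℝ) := by
  unfold uu
  exact contDiff_const.div rho_contDiff (fun x => (rho_pos x).ne')

lemma WW_contDiff : ContDiff ℝ ∞ (WW : En n → (En n →L[ℝ] ℝ)) := by
  unfold WW
  exact uu_contDiff.smul (IL n).contDiff

lemma norm_WW_le (x : En n) : ‖WW x‖ ≤ 1 := by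
  unfold WW
  have e : ‖IL n x‖ = ‖x‖ := innerSL_apply_norm ℝ x
  rw [norm_smul, e, Real.norm_eq_abs, abs_of_pos (uu_pos x)]
  unfold uu
  rw [one_div, inv_mul_le_iff₀ (rho_pos x), mul_one]
  exact norm_le_rho x

lemma fderiv_comp_rho {F F1 : ℝ → ℝ} (h : ∀ y, 0 < y → HasDerivAt F (F1 y) y) :
    fderiv ℝ (fun x : En n => F (rho x)) = fun x => F1 (rho x) • WW x := by
  funext x
  rw [(hasFDerivAt_comp_rho h x).fderiv]
  unfold WW uu
  rw [smul_smul]
  show (F1 (rho x) / rho x) • IL n x = _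
  congr 1
  ring

lemma fderiv_uu : fderiv ℝ (uu : En n → ℝ) = fun x => (-1 : ℝ) • ((uu x * uu x) • WW x) := by
  have h : ∀ y : ℝ, 0 < y → HasDerivAt (fun y : ℝ => 1 / y) (-1 / y ^ 2) y := by
    intro y hy
    have := (hasDerivAt_id y).fun_inv hy.ne'
    simpa [one_div] using this
  have e := fderiv_comp_rho (n := n) h
  have e2 : (fun x : En n => 1 / rho x) = uu := rfl
  rw [e2] at e
  rw [e]
  funext x
  rw [smul_smul]
  congr 1
  unfold uu
  field_simp

lemma fderiv_WW : fderiv ℝ (WW : En n → (En n →L[ℝ] ℝ)) = fun x =>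
    uu x • IL n
      + (-1 : ℝ) • (uu x • (ContinuousLinearMap.smulRightL ℝ (En n) (En n →L[ℝ] ℝ) (WW x) (WW x))) := by
  funext x
  have hc : HasFDerivAt (uu : En n → ℝ) ((-1 : ℝ) • ((uu x * uu x) • WW x)) x := by
    have := (uu_contDiff (n := n)).differentiable (by norm_num) x
    have h := this.hasFDerivAt
    rwa [fderiv_uu] at h
  have hi : HasFDerivAt (fun z : En n => IL n z) (IL n) x := (IL n).hasFDerivAt
  have e : fderiv ℝ (WW : En n → (En n →L[ℝ] ℝ)) x = _ := (hc.smul hi).fderiv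
  rw [e]
  congr 1
  ext v w
  simp only [ContinuousLinearMap.smulRight_apply, _root_.smul_apply,
    ContinuousLinearMap.smulRightL_apply_apply, smul_eq_mul, WW]
  ring_nf

lemma sy_const {D F : Type*} [NormedAddCommGroup D] [NormedSpace ℝ D] [NormedAddCommGroup F]
    [NormedSpace ℝ F] (c : F) (N : ℕ) : Sy (fun _ : D => (1:ℝ)) N (fun _ => c) := by
  intro i hi
  refine ⟨‖c‖, norm_nonneg _, fun x => ?_⟩
  rcases Nat.eq_zero_or_pos i with h | h
  · subst h; simp
  · rw [iteratedFDeriv_const_of_ne (by omega)]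
    simp

lemma cd_smul {D F : Type*} [NormedAddCommGroup D] [NormedSpace ℝ D] [NormedAddCommGroup F]
    [NormedSpace ℝ F] {f : D → ℝ} {g : D → F} (hf : ContDiff ℝ ∞ f) (hg : ContDiff ℝ ∞ g) :
    ContDiff ℝ ∞ (fun x => f x • g x) := hf.smul hg

lemma cd_csmul {D F : Type*} [NormedAddCommGroup D] [NormedSpace ℝ D] [NormedAddCommGroup F]
    [NormedSpace ℝ F] (c : ℝ) {g : D → F} (hg : ContDiff ℝ ∞ g) :
    ContDiff ℝ ∞ (fun x => c • g x) := contDiff_const.smul hg

lemma Sy.smulc {D F : Type*} [NormedAddCommGroup D] [NormedSpace ℝ D] [NormedAddCommGroup F]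
    [NormedSpace ℝ F] {w f : D → ℝ} {N : ℕ} (hw : ∀ x, 0 ≤ w x) (hf : ContDiff ℝ ∞ f)
    (h1 : Sy w N f) (c : F) : Sy (fun x => w x * 1) N (fun x => f x • c) :=
  h1.bilin (ContinuousLinearMap.lsmul ℝ ℝ) hw hf contDiff_const (sy_const c N)

lemma uu_WW_sy (N : ℕ) : Sy (uu : En n → ℝ) N uu ∧ Sy (fun _ : En n => (1:ℝ)) N WW := by
  have b1 : ∃ C : ℝ, 0 ≤ C ∧ ∀ x : En n, ‖uu x‖ ≤ C * uu x :=
    ⟨1, zero_le_one, fun x => by rw [one_mul, Real.norm_eq_abs, abs_of_pos (uu_pos x)]⟩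
  have b2 : ∃ C : ℝ, 0 ≤ C ∧ ∀ x : En n, ‖WW x‖ ≤ C * 1 :=
    ⟨1, zero_le_one, fun x => by rw [one_mul]; exact norm_WW_le x⟩
  induction N with
  | zero => exact ⟨Sy.zero b1, Sy.zero b2⟩
  | succ N ih =>
    have hu0 : ∀ x : En n, 0 ≤ uu x := fun x => (uu_pos x).le
    have m1 : Sy (fun x : En n => uu x * uu x) N (fun x => uu x * uu x) :=
      ih.1.bilin (ContinuousLinearMap.mul ℝ ℝ) hu0 uu_contDiff uu_contDiff ih.1
    have m2 : Sy (fun x : En n => uu x * uu x * 1) N (fun x => (uu x * uu x) • WW x) :=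
      m1.bilin (ContinuousLinearMap.lsmul ℝ ℝ) (fun x => mul_nonneg (hu0 x) (hu0 x))
        (uu_contDiff.mul uu_contDiff) WW_contDiff ih.2
    have m3 : Sy (fun x : En n => (1:ℝ) * 1) N
        (fun x => ContinuousLinearMap.smulRightL ℝ (En n) (En n →L[ℝ] ℝ) (WW x) (WW x)) :=
      ih.2.bilin _ (fun _ => zero_le_one) WW_contDiff WW_contDiff ih.2
    have c3 : ContDiff ℝ ∞
        (fun x : En n => ContinuousLinearMap.smulRightL ℝ (En n) (En n →L[ℝ] ℝ) (WW x) (WW x)) := by
      have hb : ContDiff ℝ ∞ (fun p : (En n →L[ℝ] ℝ) × (En n →L[ℝ] ℝ) =>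
          ContinuousLinearMap.smulRightL ℝ (En n) (En n →L[ℝ] ℝ) p.1 p.2) :=
        (ContinuousLinearMap.isBoundedBilinearMap _).contDiff
      have hw : ContDiff ℝ ∞ (fun x : En n => (WW x, WW x)) := WW_contDiff.prodMk WW_contDiff
      exact hb.comp hw
    have m4 : Sy (fun x : En n => uu x * ((1:ℝ) * 1)) N
        (fun x => uu x • ContinuousLinearMap.smulRightL ℝ (En n) (En n →L[ℝ] ℝ) (WW x) (WW x)) :=
      ih.1.bilin (ContinuousLinearMap.lsmul ℝ ℝ) hu0 uu_contDiff c3 m3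
    have m5 : Sy (fun x : En n => uu x * 1) N
        (fun x => uu x • IL n) :=
      ih.1.smulc hu0 uu_contDiff (IL n)
    refine ⟨Sy.succ b1 ?_, Sy.succ b2 ?_⟩
    · rw [fderiv_uu]
      refine (m2.weight zero_le_one (fun x => ?_)).const_smul
        ((uu_contDiff.mul uu_contDiff).smul WW_contDiff) _
      nlinarith [uu_pos x, uu_le_one x]
    · rw [fderiv_WW]
      have c5 : ContDiff ℝ ∞ (fun x : En n => uu x • IL n) := cd_smul uu_contDiff contDiff_const
      have c6 := cd_smul (uu_contDiff (n := n)) c3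
      have c7 := cd_csmul (-1) c6
      have w5 : Sy (fun _ : En n => (1:ℝ)) N (fun x => uu x • IL n) :=
        m5.weight zero_le_one (fun x => ?_)
      have w4 : Sy (fun _ : En n => (1:ℝ)) N (fun x => uu x •
          ContinuousLinearMap.smulRightL ℝ (En n) (En n →L[ℝ] ℝ) (WW x) (WW x)) :=
        m4.weight zero_le_one (fun x => ?_)
      exact Sy.add c5 c7 w5 (w4.const_smul c6 (-1))
      · nlinarith [uu_pos x, uu_le_one x]
      · nlinarith [uu_pos x, uu_le_one x]

lemma uu_sym : Sym (uu : En n → ℝ) uu := ⟨uu_contDiff, fun N => (uu_WW_sy N).1⟩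

lemma uu_bd : Bd (uu : En n → ℝ) :=
  uu_sym.weight zero_le_one (fun x => by rw [one_mul]; exact uu_le_one x)

lemma sy_smul_WW {f : En n → ℝ} (hf : Bd f) (N : ℕ) :
    Sy (fun _ : En n => (1:ℝ)) N (fun x => f x • WW x) :=
  ((hf.2 N).bilin (ContinuousLinearMap.lsmul ℝ ℝ) (fun _ => zero_le_one) hf.1 WW_contDiff
    (uu_WW_sy N).2).weight zero_le_one (fun x => by simp)

/-! ### the building blocks -/

lemma mm_bd : Bd (fun x : En n => mm (rho x)) := by
  have := uu_bd (n := n).sq.const_sub 1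
  refine ⟨?_, ?_⟩
  · have e : (fun x : En n => mm (rho x)) = fun x => 1 - uu x ^ 2 := by
      funext x; unfold mm uu; rw [one_div_pow]
    rw [e]; exact this.1
  · have e : (fun x : En n => mm (rho x)) = fun x => 1 - uu x ^ 2 := by
      funext x; unfold mm uu; rw [one_div_pow]
    rw [e]; exact this.2

lemma S1_bd : Bd (fun x : En n => S1 k (rho x)) := by
  have e : (fun x : En n => S1 k (rho x)) = fun x => k - k / 2 * uu x := by
    funext x; unfold S1 uu
    have := (rho_pos x).ne'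
    field_simp
  rw [e]
  exact Bd.const_sub k (uu_bd.const_mul (k / 2))

lemma S_contDiff : ContDiff ℝ ∞ (fun x : En n => S k (rho x)) := by
  rw [contDiff_iff_contDiffAt]
  exact fun x => (S_contDiffAt k (rho_pos x)).comp x rho_contDiff.contDiffAt

lemma S_sy (N : ℕ) : Sy (fun _ : En n => (1:ℝ)) N (fderiv ℝ (fun x : En n => S k (rho x))) := by
  rw [fderiv_comp_rho (fun y hy => hasDerivAt_S k hy)]
  exact sy_smul_WW S1_bd N

lemma cosS_bd : Bd (fun x : En n => cos (S k (rho x))) := sin_cos_bd.2.comp S_contDiff S_sy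

lemma sin2S_bd : Bd (fun x : En n => sin (2 * S k (rho x))) := by
  have h : Bd (fun x : En n => sin (S k (rho x))) := sin_cos_bd.1.comp S_contDiff S_sy
  have := (h.mul (cosS_bd (k := k))).const_mul 2
  have e : (fun x : En n => sin (2 * S k (rho x))) = fun x => 2 * (sin (S k (rho x)) * cos (S k (rho x))) := by
    funext x; rw [sin_two_mul]; ring
  rw [e]; exact this

lemma chiS_bd : Bd (fun x : En n => chi (S k (rho x))) := chi_bd.comp S_contDiff S_sy
lemma dchiS_bd : Bd (fun x : En n => deriv chi (S k (rho x))) := deriv_chi_bd.comp S_contDiff S_sy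

lemma T1_bd : Bd (fun x : En n => T1 k (rho x)) := by
  have h : Bd (fun x : En n => 4 * S1 k (rho x)) := (S1_bd (n := n) (k := k)).const_mul 4
  exact Bd.mul h (Bd.sq cosS_bd)

lemma T_contDiff : ContDiff ℝ ∞ (fun x : En n => T k (rho x)) := by
  rw [contDiff_iff_contDiffAt]
  exact fun x => (T_contDiffAt k (rho_pos x)).comp x rho_contDiff.contDiffAt

lemma T_sy (N : ℕ) : Sy (fun _ : En n => (1:ℝ)) N (fderiv ℝ (fun x : En n => T k (rho x))) := by
  rw [fderiv_comp_rho (fun y hy => hasDerivAt_T k hy)]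
  exact sy_smul_WW T1_bd N

lemma wz_T_le (hk : 2 ≤ k) (x : En n) : wz (T k (rho x)) ≤ 2 * uu x := by
  have h := y_le hk (one_le_rho x)
  have hT := T_nonneg (by linarith : 0 ≤ k) (one_le_rho x)
  have h1 : rho x ≤ 2 * √(1 + T k (rho x) ^ 2) := by
    have h2 : rho x / 2 ≤ √(1 + T k (rho x) ^ 2) := by
      apply Real.le_sqrt_of_sq_le
      nlinarith [sq_nonneg (T k (rho x) - 1), rho_pos x]
    linarith
  unfold wz uu
  rw [mul_one_div, div_le_div_iff₀ (by positivity) (rho_pos x)]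
  linarith

lemma qq_sym (hk : 2 ≤ k) : Sym (uu : En n → ℝ) (fun x => qq k (rho x)) :=
  rz_hz_sym.2.comp' T_contDiff T_sy (by norm_num : (0:ℝ) ≤ 2) (fun x => (uu_pos x).le)
    (fun x => wz_T_le hk x)

lemma rz_sym' (hk : 2 ≤ k) : Sym (uu : En n → ℝ) (fun x => rz (T k (rho x))) :=
  rz_hz_sym.1.comp' T_contDiff T_sy (by norm_num : (0:ℝ) ≤ 2) (fun x => (uu_pos x).le)
    (fun x => wz_T_le hk x)

lemma frac_sym (hk : 2 ≤ k) : Sym (uu : En n → ℝ)
    (fun x => T1 k (rho x) * (1 - T k (rho x) ^ 2) / (1 + T k (rho x) ^ 2) ^ 2) := by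
  have hq := qq_sym (n := n) hk
  have hqb : Bd (fun x : En n => qq k (rho x)) :=
    hq.weight zero_le_one (fun x => by rw [one_mul]; exact uu_le_one x)
  have h := (T1_bd (n := n) (k := k)).mul_sym ((rz_sym' hk).sub ((hqb.mul_sym hq).const_mul 2))
  have e : (fun x : En n => T1 k (rho x) * (1 - T k (rho x) ^ 2) / (1 + T k (rho x) ^ 2) ^ 2)
      = fun x => T1 k (rho x) * (rz (T k (rho x)) - 2 * (qq k (rho x) * qq k (rho x))) := by
    funext x
    unfold rz qq
    field_simp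
    ring
  rw [e]; exact h

/-! ### cut off rational functions -/

def z1 (k : ℝ) : ℝ := 2 * k / (2 * k + 1)
def z0 (k : ℝ) : ℝ := (1 + z1 k) / 2
def eta (k z : ℝ) : ℝ :=
  Real.smoothTransition ((z0 k - z) / (z0 k - z1 k)) * Real.smoothTransition (2 * z + 1)

lemma z1_lt (hk : 0 < k) : z1 k < z0 k ∧ z0 k < 1 := by
  have h : z1 k < 1 := by unfold z1; rw [div_lt_one (by linarith)]; linarith
  unfold z0; constructor <;> linarith

lemma eta_contDiff : ContDiff ℝ ∞ (eta k) := by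
  unfold eta
  exact (Real.smoothTransition.contDiff.comp (by fun_prop)).mul
    (Real.smoothTransition.contDiff.comp (by fun_prop))

lemma eta_one (hk : 0 < k) {z : ℝ} (h0 : 0 ≤ z) (h1 : z ≤ z1 k) : eta k z = 1 := by
  unfold eta
  have := (z1_lt hk).1
  rw [Real.smoothTransition.one_of_one_le, Real.smoothTransition.one_of_one_le (by linarith), one_mul]
  rw [le_div_iff₀ (by linarith)]; linarith

lemma eta_zero_right (hk : 0 < k) {z : ℝ} (h : z0 k ≤ z) : eta k z = 0 := by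
  unfold eta
  have := (z1_lt hk).1
  rw [Real.smoothTransition.zero_of_nonpos, zero_mul]
  exact div_nonpos_of_nonpos_of_nonneg (by linarith) (by linarith)

lemma eta_zero_left {z : ℝ} (h : z ≤ -(1/2)) : eta k z = 0 := by
  unfold eta
  rw [Real.smoothTransition.zero_of_nonpos (x := 2 * z + 1) (by linarith), mul_zero]

lemma cut_bd (hk : 0 < k) {f : ℝ → ℝ} (hf : ∀ z, -1 < z → z < 1 → ContDiffAt ℝ ∞ f z) :
    Bd (fun z => eta k z * f z) := by
  obtain ⟨h1, h2⟩ := z1_lt hk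
  refine bd_of_compact ?_ ?_
  · rw [contDiff_iff_contDiffAt]
    intro z
    by_cases ha : -1 < z
    · by_cases hb : z < 1
      · exact eta_contDiff.contDiffAt.mul (hf z ha hb)
      · have : (fun z => eta k z * f z) =ᶠ[𝓝 z] fun _ => 0 := by
          filter_upwards [Ioi_mem_nhds (lt_of_lt_of_le h2 (not_lt.mp hb))] with u hu
          rw [eta_zero_right hk (le_of_lt hu), zero_mul]
        exact contDiffAt_const.congr_of_eventuallyEq this
    · have : (fun z => eta k z * f z) =ᶠ[𝓝 z] fun _ => 0 := by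
        filter_upwards [Iio_mem_nhds (show z < -(1/2) by linarith [not_lt.mp ha])] with u hu
        rw [eta_zero_left (le_of_lt hu), zero_mul]
      exact contDiffAt_const.congr_of_eventuallyEq this
  · refine HasCompactSupport.intro (isCompact_Icc (a := (-(1/2):ℝ)) (b := z0 k)) fun z hz => ?_
    by_cases ha : z ≤ -(1/2)
    · rw [eta_zero_left ha, zero_mul]
    · rw [eta_zero_right hk, zero_mul]
      by_contra hb
      exact hz ⟨(not_le.mp ha).le, (not_le.mp hb).le⟩

def G1 (n : ℕ) (z : ℝ) : ℝ := z / (2 - z) + (((n:ℝ) - 1) + z ^ 2) / (1 - z ^ 2)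
def G2 (n : ℕ) (z : ℝ) : ℝ := (4 * z - z ^ 2) / (2 - z) ^ 2
  + (((n:ℝ) - 1) + ((n:ℝ) - 1) * z ^ 2 + 3 * z ^ 2 - z ^ 4) / (1 - z ^ 2) ^ 2

lemma G1_contDiffAt (n : ℕ) {z : ℝ} (h1 : -1 < z) (h2 : z < 1) : ContDiffAt ℝ ∞ (G1 n) z := by
  have e1 : 2 - z ≠ 0 := by linarith
  have e2 : 1 - z ^ 2 ≠ 0 := by nlinarith
  unfold G1
  have c1 : ContDiffAt ℝ ∞ (fun z : ℝ => z) z := contDiffAt_id
  have c2 : ContDiffAt ℝ ∞ (fun z : ℝ => 2 - z) z := by fun_prop
  have c3 : ContDiffAt ℝ ∞ (fun z : ℝ => ((n:ℝ) - 1) + z ^ 2) z := by fun_prop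
  have c4 : ContDiffAt ℝ ∞ (fun z : ℝ => 1 - z ^ 2) z := by fun_prop
  exact (c1.div c2 e1).add (c3.div c4 e2)

lemma G2_contDiffAt (n : ℕ) {z : ℝ} (h1 : -1 < z) (h2 : z < 1) : ContDiffAt ℝ ∞ (G2 n) z := by
  have e1 : (2 - z) ^ 2 ≠ 0 := pow_ne_zero _ (by linarith)
  have e2 : (1 - z ^ 2) ^ 2 ≠ 0 := pow_ne_zero _ (by nlinarith)
  unfold G2
  have c1 : ContDiffAt ℝ ∞ (fun z : ℝ => 4 * z - z ^ 2) z := by fun_prop
  have c2 : ContDiffAt ℝ ∞ (fun z : ℝ => (2 - z) ^ 2) z := by fun_prop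
  have c3 : ContDiffAt ℝ ∞
    (fun z : ℝ => ((n:ℝ) - 1) + ((n:ℝ) - 1) * z ^ 2 + 3 * z ^ 2 - z ^ 4) z := by fun_prop
  have c4 : ContDiffAt ℝ ∞ (fun z : ℝ => (1 - z ^ 2) ^ 2) z := by fun_prop
  exact (c1.div c2 e1).add (c3.div c4 e2)

lemma z1_of_S (hk : 1 ≤ k) {x : En n} (hS : 1 / 2 ≤ S k (rho x)) : uu x ≤ z1 k ∧ 1 < rho x := by
  have h1 := one_le_rho x
  have h2 : 1 < rho x := by
    rcases eq_or_lt_of_le h1 with h | h
    · rw [← h, S_one] at hS; norm_num at hS
    · exact h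
  have h3 := S_le k (by linarith) h1
  refine ⟨?_, h2⟩
  unfold uu z1
  rw [div_le_div_iff₀ (rho_pos x) (by linarith)]
  nlinarith

lemma DD_eq {x : En n} (h : 1 < rho x) : DD n (rho x) = uu x * G1 n (uu x) := by
  unfold DD G1 uu
  have h0 := (rho_pos x).ne'
  have h1 : 2 * rho x - 1 ≠ 0 := by linarith
  have h2 : rho x ^ 2 - 1 ≠ 0 := by nlinarith
  have e1 : 2 - 1 / rho x = (2 * rho x - 1) / rho x := by field_simp
  have e2 : 1 - (1 / rho x) ^ 2 = (rho x ^ 2 - 1) / rho x ^ 2 := by field_simp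
  rw [e1, e2]
  have e3 : 1 / rho x * (1 / rho x / ((2 * rho x - 1) / rho x)
      + ((n:ℝ) - 1 + (1 / rho x) ^ 2) / ((rho x ^ 2 - 1) / rho x ^ 2))
      = 1 / rho x * (1 / rho x / ((2 * rho x - 1) / rho x))
      + 1 / rho x * (((n:ℝ) - 1 + (1 / rho x) ^ 2) / ((rho x ^ 2 - 1) / rho x ^ 2)) := by ring
  rw [e3]
  congr 1
  · field_simp
  · field_simp

lemma DD1_eq {x : En n} (h : 1 < rho x) : DD1 n (rho x) = -(uu x * uu x * G2 n (uu x)) := by
  unfold DD1 G2 uu
  have h0 := (rho_pos x).ne'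
  have h1 : 2 * rho x - 1 ≠ 0 := by linarith
  have h2 : rho x ^ 2 - 1 ≠ 0 := by nlinarith
  have e1 : 2 - 1 / rho x = (2 * rho x - 1) / rho x := by field_simp
  have e2 : 1 - (1 / rho x) ^ 2 = (rho x ^ 2 - 1) / rho x ^ 2 := by field_simp
  rw [e1, e2]
  have e3 : ∀ a b : ℝ, -(1 / rho x * (1 / rho x) * (a + b))
      = -(1 / rho x * (1 / rho x) * a) - 1 / rho x * (1 / rho x) * b := by intro a b; ring
  rw [e3]
  congr 1
  · field_simp
  · field_simp

lemma aa_sym (hk : 1 ≤ k) : Sym (uu : En n → ℝ) (fun x => aa k n (rho x)) := by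
  have hb := cut_bd (k := k) (by linarith) (fun z h1 h2 => G1_contDiffAt n h1 h2)
  have hc : Bd (fun x : En n => eta k (uu x) * G1 n (uu x)) :=
    hb.comp uu_contDiff (fun N => uu_bd.fderiv_sy N)
  have h := (chiS_bd (n := n) (k := k)).mul_sym (hc.mul_sym uu_sym)
  have e : (fun x : En n => aa k n (rho x))
      = fun x => chi (S k (rho x)) * (eta k (uu x) * G1 n (uu x) * uu x) := by
    funext x
    by_cases hS : S k (rho x) < 1 / 2
    · rw [chi_zero hS.le, zero_mul]
      unfold aa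
      split_ifs with h
      · rfl
      · rw [chi_zero hS.le, zero_mul]
    · obtain ⟨a1, a2⟩ := z1_of_S hk (not_lt.mp hS)
      rw [aa_eq_of_gt k n a2, DD_eq a2, eta_one (by linarith) (uu_pos x).le a1]
      ring
  rw [e]; exact h

lemma daa_sym (hk : 1 ≤ k) : Sym (uu : En n → ℝ) (fun x => deriv (aa k n) (rho x)) := by
  have hb := cut_bd (k := k) (by linarith) (fun z h1 h2 => G1_contDiffAt n h1 h2)
  have hc : Bd (fun x : En n => eta k (uu x) * G1 n (uu x)) :=
    hb.comp uu_contDiff (fun N => uu_bd.fderiv_sy N)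
  have hb2 := cut_bd (k := k) (by linarith) (fun z h1 h2 => G2_contDiffAt n h1 h2)
  have hc2 : Bd (fun x : En n => eta k (uu x) * G2 n (uu x)) :=
    hb2.comp uu_contDiff (fun N => uu_bd.fderiv_sy N)
  have h := (((dchiS_bd (n := n) (k := k)).mul (S1_bd (k := k))).mul_sym (hc.mul_sym uu_sym)).sub
    ((chiS_bd (n := n) (k := k)).mul_sym ((hc2.mul uu_bd).mul_sym uu_sym))
  have e : (fun x : En n => deriv (aa k n) (rho x))
      = fun x => deriv chi (S k (rho x)) * S1 k (rho x) * (eta k (uu x) * G1 n (uu x) * uu x)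
        - chi (S k (rho x)) * (eta k (uu x) * G2 n (uu x) * uu x * uu x) := by
    funext x
    by_cases hS : S k (rho x) < 1 / 2
    · rw [chi_zero hS.le, chi_deriv_zero hS]
      rcases eq_or_lt_of_le (one_le_rho x) with h | h
      · rw [deriv_aa_of_le k n h.symm.le]; ring
      · rw [deriv_aa_of_gt k n h, chi_zero hS.le, chi_deriv_zero hS]; ring
    · obtain ⟨a1, a2⟩ := z1_of_S hk (not_lt.mp hS)
      rw [deriv_aa_of_gt k n a2, DD_eq a2, DD1_eq a2, eta_one (by linarith) (uu_pos x).le a1]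
      ring
  rw [e]; exact h

lemma tau_bd' : Bd (fun s => Real.smoothTransition (2 * s + 1) * tau s) := by
  refine bd_of_compact ?_ ?_
  · rw [contDiff_iff_contDiffAt]
    intro s
    have c1 : ContDiffAt ℝ ∞ (fun s : ℝ => Real.smoothTransition (2 * s + 1)) s :=
      Real.smoothTransition.contDiff.contDiffAt.comp s (by fun_prop)
    by_cases h0 : 0 ≤ s
    · exact c1.mul (tau_contDiffAt h0)
    · by_cases h1 : -1 < s
      · have hc : cos s ≠ 0 := by
          have : 0 < cos s := cos_pos_of_mem_Ioo ⟨by linarith [pi_gt_three], by linarith [pi_gt_three, not_le.mp h0]⟩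
          exact this.ne'
        exact c1.mul ((contDiffAt_const.sub chi_contDiff.contDiffAt).mul (contDiffAt_tan.2 hc))
      · have : (fun s => Real.smoothTransition (2 * s + 1) * tau s) =ᶠ[𝓝 s] fun _ => 0 := by
          filter_upwards [Iio_mem_nhds (show s < -(1/2) by linarith [not_lt.mp h1])] with u hu
          have hu' : u < -(1/2) := hu
          rw [Real.smoothTransition.zero_of_nonpos (by linarith), zero_mul]
        exact contDiffAt_const.congr_of_eventuallyEq this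
  · refine HasCompactSupport.intro (isCompact_Icc (a := (-(1/2):ℝ)) (b := 1)) fun s hs => ?_
    by_cases ha : s ≤ -(1/2)
    · rw [Real.smoothTransition.zero_of_nonpos (by linarith), zero_mul]
    · have hb : 1 < s := by
        by_contra hb
        exact hs ⟨(not_le.mp ha).le, not_lt.mp hb⟩
      simp [tau, chi_one hb.le]

lemma tau_bd (hk : 0 ≤ k) : Bd (fun x : En n => tau (S k (rho x))) := by
  have h := tau_bd'.comp (S_contDiff (n := n) (k := k)) S_sy
  have e : (fun x : En n => tau (S k (rho x)))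
      = fun x => Real.smoothTransition (2 * S k (rho x) + 1) * tau (S k (rho x)) := by
    funext x
    have := S_nonneg k hk (one_le_rho x)
    rw [Real.smoothTransition.one_of_one_le (by linarith), one_mul]
  rw [e]; exact h

lemma BB_sym : Sym (uu : En n → ℝ) (fun x => BB n (rho x)) := by
  have h := (uu_sym (n := n)).const_mul ((n:ℝ) - 1) |>.add ((uu_bd.mul uu_bd).mul_sym uu_sym)
  have e : (fun x : En n => BB n (rho x)) = fun x => ((n:ℝ) - 1) * uu x + uu x * uu x * uu x := by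
    funext x; unfold BB uu; ring
  rw [e]; exact h

lemma S2_sym : Sym (uu : En n → ℝ) (fun x => S2 k (rho x)) := by
  have h := ((uu_bd (n := n)).mul_sym uu_sym).const_mul (k / 2)
  have e : (fun x : En n => S2 k (rho x)) = fun x => k / 2 * (uu x * uu x) := by
    funext x; unfold S2 uu
    have := (rho_pos x).ne'
    field_simp
  rw [e]; exact h

lemma Lam_sym (hk : 2 ≤ k) : Sym (uu : En n → ℝ) (fun x => Lam k g n (rho x)) := by
  have h1 := (aa_sym (n := n) (by linarith : 1 ≤ k)).const_mul (-(1 / 2))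
  have h2 := (((S1_bd (n := n) (k := k)).mul (cosS_bd (k := k)).sq).mul_sym (qq_sym hk)).const_mul (8 * g)
  exact h1.sub h2

lemma Sym.bd_of_uu {f : En n → ℝ} (h : Sym (uu : En n → ℝ) f) : Bd f :=
  h.weight zero_le_one (fun x => by rw [one_mul]; exact uu_le_one x)

lemma Lam1_sym (hk : 2 ≤ k) : Sym (uu : En n → ℝ) (fun x => Lam1 k g n (rho x)) := by
  have h1 := (daa_sym (n := n) (by linarith : 1 ≤ k)).const_mul (-(1 / 2))
  have a1 := ((S2_sym (n := n) (k := k)).bd_of_uu.mul (cosS_bd (k := k)).sq).mul_sym (qq_sym hk)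
  have a2 := ((S1_bd (n := n) (k := k)).sq.mul (sin2S_bd (k := k))).mul_sym (qq_sym hk)
  have a3 := ((S1_bd (n := n) (k := k)).mul (cosS_bd (k := k)).sq).mul_sym (frac_sym hk)
  exact h1.sub (((a1.sub a2).add a3).const_mul (8 * g))

lemma vv_sym (hk : 2 ≤ k) : Sym (uu : En n → ℝ) (fun x => vv k g n (rho x)) := by
  have hu := uu_sym (n := n)
  have hub := uu_bd (n := n)
  have t1 : Sym (uu : En n → ℝ) (fun x => k ^ 2 - S1 k (rho x) ^ 2 * mm (rho x)) := by
    have h0 : Bd (fun x : En n => 1 / 4 * (uu x * uu x * uu x) - uu x * uu x + 3 / 4 * uu x) :=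
      ((((hub.mul hub).mul hub).const_mul (1 / 4)).sub (hub.mul hub)).add (hub.const_mul (3 / 4))
    have h := ((h0.const_add 1).mul_sym hu).const_mul (k ^ 2)
    have e : (fun x : En n => k ^ 2 - S1 k (rho x) ^ 2 * mm (rho x))
        = fun x => k ^ 2 * ((1 + (1 / 4 * (uu x * uu x * uu x) - uu x * uu x + 3 / 4 * uu x)) * uu x) := by
      funext x
      unfold S1 mm uu
      have := (rho_pos x).ne'
      field_simp
      ring
    rw [e]; exact h
  have hL := Lam_sym (n := n) (g := g) hk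
  have hL1 := Lam1_sym (n := n) (g := g) hk
  have t2 := (mm_bd (n := n)).mul_sym (hL1.add (hL.bd_of_uu.mul_sym hL))
  have t3 := (BB_sym (n := n)).bd_of_uu.mul_sym hL
  have t4 := (tau_bd (n := n) (k := k) (by linarith)).mul_sym
    (((mm_bd (n := n)).mul_sym (S2_sym (k := k))).add ((S1_bd (n := n) (k := k)).mul_sym BB_sym))
  have t5 := ((((S1_bd (n := n) (k := k)).sq.mul mm_bd).mul (sin2S_bd (k := k))).mul_sym
    (qq_sym hk)).const_mul (8 * g)
  have h := (((t1.add t2).add t3).sub t4).add t5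
  have e : (fun x : En n => vv k g n (rho x)) = fun x =>
      (k ^ 2 - S1 k (rho x) ^ 2 * mm (rho x))
      + mm (rho x) * (Lam1 k g n (rho x) + Lam k g n (rho x) * Lam k g n (rho x))
      + BB n (rho x) * Lam k g n (rho x)
      - tau (S k (rho x)) * (mm (rho x) * S2 k (rho x) + S1 k (rho x) * BB n (rho x))
      + 8 * g * (S1 k (rho x) ^ 2 * mm (rho x) * sin (2 * S k (rho x)) * qq k (rho x)) := by
    funext x; unfold vv; ring
  rw [e]; exact h

/-! ### the amplitude -/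

def AA (k : ℝ) (g : ℕ) (x : En n) : ℝ := exp (LL k g n (rho x))

lemma AA_contDiff : ContDiff ℝ ∞ (AA k g : En n → ℝ) := by
  rw [contDiff_iff_contDiffAt]
  exact fun x => ((LL_contDiffAt k g n (rho_pos x)).comp x rho_contDiff.contDiffAt).exp

lemma AA_sym (hk : 2 ≤ k) : Sym (AA k g : En n → ℝ) (AA k g) := by
  refine ⟨AA_contDiff, fun N => ?_⟩
  have b : ∃ C : ℝ, 0 ≤ C ∧ ∀ x : En n, ‖AA k g x‖ ≤ C * AA k g x :=
    ⟨1, zero_le_one, fun x => by
      rw [one_mul, Real.norm_eq_abs, abs_of_pos (by unfold AA; positivity)]⟩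
  induction N with
  | zero => exact Sy.zero b
  | succ N ih =>
    refine Sy.succ b ?_
    have hd : ∀ y, 0 < y → HasDerivAt (fun y => exp (LL k g n y)) (exp (LL k g n y) * Lam k g n y) y :=
      fun y hy => (hasDerivAt_LL k g n hy).exp
    have e : fderiv ℝ (AA k g : En n → ℝ) = fun x => AA k g x • (Lam k g n (rho x) • WW x) := by
      have := fderiv_comp_rho (n := n) hd
      have e2 : (fun x : En n => exp (LL k g n (rho x))) = AA k g := rfl
      rw [e2] at this
      rw [this]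
      funext x
      rw [smul_smul]; rfl
    rw [e]
    have hL := (Lam_sym (n := n) (g := g) hk).bd_of_uu
    exact (ih.bilin (ContinuousLinearMap.lsmul ℝ ℝ) (fun x => (exp_pos _).le) AA_contDiff
      (hL.1.smul WW_contDiff) (sy_smul_WW hL N)).weight zero_le_one
        (fun x => by rw [mul_one, one_mul]; exact le_rfl)

lemma phi_sq_sym (hn : 1 ≤ n) (hg : 1 ≤ g) (hk : 2 ≤ k) :
    Sym (uu : En n → ℝ) (fun x => phi k g x ^ 2) := by
  have hA := AA_sym (n := n) (g := g) hk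
  have h1 := (Sym.mul (fun x => (exp_pos _).le) hA hA).mul_bd
    (fun x => mul_nonneg (exp_pos _).le (exp_pos _).le) ((cosS_bd (n := n) (k := k)).sq)
  have h2 : Sym (uu : En n → ℝ) (fun x : En n => AA k g x * AA k g x * cos (S k (rho x)) ^ 2) := by
    refine h1.weight (by norm_num : (0:ℝ) ≤ 2 ^ g * 2 ^ g) (fun x => ?_)
    have hb : AA k g x ≤ (2 / rho x) ^ g := exp_LL_le hn hk (one_le_rho x)
    have hpos : 0 < AA k g x := exp_pos _
    have h3 : (2 / rho x) ^ g = 2 ^ g * uu x ^ g := by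
      unfold uu; rw [div_eq_mul_one_div, mul_pow]
    have h4 : uu x ^ g ≤ uu x := by
      calc uu x ^ g ≤ uu x ^ 1 := pow_le_pow_of_le_one (uu_pos x).le (uu_le_one x) hg
        _ = _ := pow_one _
    have h5 : uu x ^ g ≤ 1 := le_trans h4 (uu_le_one x)
    rw [h3] at hb
    have h6 : 0 < uu x ^ g := pow_pos (uu_pos x) g
    have h7 : (0:ℝ) < 2 ^ g := by positivity
    calc AA k g x * AA k g x ≤ (2 ^ g * uu x ^ g) * (2 ^ g * uu x ^ g) :=
          mul_le_mul hb hb hpos.le (by positivity)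
      _ = 2 ^ g * 2 ^ g * (uu x ^ g * uu x ^ g) := by ring
      _ ≤ 2 ^ g * 2 ^ g * (uu x * 1) := by
          apply mul_le_mul_of_nonneg_left _ (by positivity)
          exact mul_le_mul h4 h5 h6.le (uu_pos x).le
      _ = _ := by ring
  have e : (fun x : En n => phi k g x ^ 2) = fun x => AA k g x * AA k g x * cos (S k (rho x)) ^ 2 := by
    funext x; unfold phi FF AA; ring
  rw [e]; exact h2

lemma pot_sym (hn : 1 ≤ n) (hg : 1 ≤ g) (hk : 2 ≤ k) : Sym (uu : En n → ℝ) (pot k g) :=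
  (vv_sym hk).sub (phi_sq_sym hn hg hk)

/-- all derivatives of the potential are `O(⟨x⟩⁻¹)` -/
theorem pot_bounds (hn : 1 ≤ n) (hg : 1 ≤ g) (hk : 2 ≤ k) (j : ℕ) : ∃ C : ℝ, ∀ x : En n,
    ‖iteratedFDeriv ℝ j (pot k g) x‖ ≤ C / (1 + ‖x‖) := by
  obtain ⟨C, hC0, hC⟩ := (pot_sym (n := n) hn hg hk).2 j j le_rfl
  refine ⟨2 * C, fun x => le_trans (hC x) ?_⟩
  unfold uu
  rw [mul_one_div, div_le_div_iff₀ (rho_pos x) (by positivity)]
  nlinarith [norm_le_rho x, one_le_rho x]

end H751R3.Nls
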